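import Pool.Agent.MP_acab80_co.Count

/-!
# The general upper bound `√3 ^ strong * (20/17) ^ weak`
-/

open Finset

namespace Pool.Agent.MP_acab80_co

variable {V : Type*} [DecidableEq V]

/-- The square root of three. -/
noncomputable def s3 : ℝ := Real.sqrt 3

lemma s3_sq : s3 ^ 2 = 3 := Real.sq_sqrt (by norm_num)

lemma s3_nonneg : 0 ≤ s3 := Real.sqrt_nonneg 3

lemma s3_gt : (173 : ℝ) / 100 < s3 := by
  have h := s3_sq
  have h0 := s3_nonneg
  nlinarith

lemma s3_lt : s3 < (1733 : ℝ) / 1000 := by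
  have h := s3_sq
  have h0 := s3_nonneg
  nlinarith

/-- Weight of a vertex: `20/17` if it is weak and `√3` otherwise. -/
noncomputable def wt (W : Finset V) (x : V) : ℝ := if x ∈ W then 20 / 17 else s3

/-- The product of the weights. -/
noncomputable def Phi (S W : Finset V) : ℝ := ∏ x ∈ S, wt W x

lemma wt_of_mem {W : Finset V} {x : V} (h : x ∈ W) : wt W x = 20 / 17 := by simp [wt, h]

lemma wt_of_notMem {W : Finset V} {x : V} (h : x ∉ W) : wt W x = s3 := by simp [wt, h]

lemma one_le_wt (W : Finset V) (x : V) : 1 ≤ wt W x := by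
  unfold wt
  split_ifs
  · norm_num
  · linarith [s3_gt]

lemma wt_pos (W : Finset V) (x : V) : 0 < wt W x := lt_of_lt_of_le one_pos (one_le_wt W x)

lemma wt_le (W : Finset V) (x : V) : wt W x ≤ s3 := by
  unfold wt
  split_ifs
  · linarith [s3_gt]
  · exact le_rfl

lemma le_wt (W : Finset V) (x : V) : 20 / 17 ≤ wt W x := by
  unfold wt
  split_ifs
  · exact le_rfl
  · linarith [s3_gt]

lemma Phi_pos (S W : Finset V) : 0 < Phi S W := prod_pos fun x _ => wt_pos W x

lemma one_le_Phi (S W : Finset V) : 1 ≤ Phi S W := by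
  unfold Phi
  exact prod_induction _ (fun x : ℝ => 1 ≤ x)
    (fun a b ha hb => one_le_mul_of_one_le_of_one_le ha hb) le_rfl (fun x _ => one_le_wt W x)

lemma Phi_sdiff {S D : Finset V} (W : Finset V) (h : D ⊆ S) :
    Phi (S \ D) W * Phi D W = Phi S W := prod_sdiff h

lemma Phi_anti {S W W' : Finset V} (h : W ⊆ W') : Phi S W' ≤ Phi S W := by
  unfold Phi
  refine prod_le_prod (fun x _ => (wt_pos W' x).le) fun x _ => ?_
  by_cases hx : x ∈ W
  · rw [wt_of_mem hx, wt_of_mem (h hx)]
  · rw [wt_of_notMem hx]; exact wt_le W' x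

lemma Phi_mono {S T : Finset V} (W : Finset V) (h : T ⊆ S) : Phi T W ≤ Phi S W := by
  have h1 := Phi_sdiff W h
  have h2 := one_le_Phi (S \ T) W
  have h3 := Phi_pos T W
  nlinarith

lemma Phi_erase {S : Finset V} {v : V} (W : Finset V) (h : v ∈ S) :
    Phi (S.erase v) W * wt W v = Phi S W := prod_erase_mul S _ h

lemma Phi_le_pow (S W : Finset V) : Phi S W ≤ s3 ^ S.card := by
  unfold Phi
  calc ∏ x ∈ S, wt W x ≤ ∏ _x ∈ S, s3 :=
        prod_le_prod (fun x _ => (wt_pos W x).le) fun x _ => wt_le W x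
    _ = s3 ^ S.card := by simp

lemma Phi_insert {D : Finset V} {v : V} (W : Finset V) (h : v ∉ D) :
    Phi (insert v D) W = wt W v * Phi D W := prod_insert h

lemma Phi_eq_pow (D W : Finset V) :
    Phi D W = s3 ^ (D.filter (fun x => x ∉ W)).card * (20 / 17) ^ (D.filter (fun x => x ∈ W)).card := by
  unfold Phi
  rw [← prod_filter_mul_prod_filter_not D (fun x => x ∈ W), mul_comm]
  congr 1
  · rw [prod_congr rfl (fun x hx => wt_of_notMem (mem_filter.1 hx).2)]
    simp
  · rw [prod_congr rfl (fun x hx => wt_of_mem (mem_filter.1 hx).2), prod_const]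

/-- If all of `D` is weak in the new weak set. -/
lemma Phi_all_weak {D W : Finset V} (h : D ⊆ W) : Phi D W = (20 / 17) ^ D.card := by
  unfold Phi
  rw [prod_congr rfl (fun x hx => wt_of_mem (h hx)), prod_const]

variable [Fintype V] {R : V → V → Prop} {S W : Finset V} {v : V}

omit [Fintype V] [DecidableEq V] in
lemma notMem_nb (hirr : ∀ x, ¬ R x x) : v ∉ nb R S v := by
  intro h
  rcases (mem_nb.1 h).2 with h | h <;> exact hirr v h

omit [Fintype V] [DecidableEq V] in
lemma nb_subset : nb R S v ⊆ S := fun _ hx => (mem_nb.1 hx).1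

omit [Fintype V] in
lemma D_subset (hv : v ∈ S) : insert v (nb R S v) ⊆ S := by
  intro x hx
  rcases mem_insert.1 hx with h | h
  · rw [h]; exact hv
  · exact nb_subset h

omit [Fintype V] in
lemma sdiff_D_ssubset (hv : v ∈ S) : S \ insert v (nb R S v) ⊂ S := by
  refine ⟨sdiff_subset, fun h => ?_⟩
  have := h hv
  simp at this

lemma card_le_one_of_weak (h : ∀ x ∈ S, x ∈ W) : (Lab R S W).card ≤ 1 := by
  rw [card_le_one]
  have key : ∀ L ∈ Lab R S W, ∀ x, L x = if x ∈ S then 1 else 0 := by
    intro L hL x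
    have hL' := mem_Lab.1 hL
    have hno : ∀ y, L y ≠ 2 := by
      intro y hy
      by_cases hyS : y ∈ S
      · exact ((hL'.2 y hyS).1.1 hy).1 (h y hyS)
      · rw [hL'.1 y hyS] at hy; exact absurd hy (by decide)
    by_cases hx : x ∈ S
    · rw [if_pos hx]
      have h2 := hno x
      have h0 : L x ≠ 0 := by
        intro h0
        obtain ⟨y, -, hy⟩ := (hL'.2 x hx).2.1 h0
        exact hno y hy
      revert h2 h0
      generalize L x = p
      revert p
      decide
    · rw [if_neg hx]; exact hL'.1 x hx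
  intro L hL L' hL'
  funext x
  rw [key L hL x, key L' hL' x]

/-- A strong vertex without alive attackers is in. -/
lemma eq_two_of_unattacked {L : V → Fin 3} (hL : L ∈ Lab R S W) (hv : v ∈ S) (hvW : v ∉ W)
    (h : ∀ y ∈ S, ¬ R y v) : L v = 2 := by
  have hL' := mem_Lab.1 hL
  refine (hL'.2 v hv).1.2 ⟨hvW, fun y hR => ?_⟩
  by_cases hy : y ∈ S
  · exact absurd hR (h y hy)
  · exact hL'.1 y hy

/-- An undecided strong vertex has an undecided attacker, and no attacker is in. -/
lemma und_attacker {L : V → Fin 3} (hL : L ∈ Lab R S W) (hv : v ∈ S) (hvW : v ∉ W)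
    (h1 : L v = 1) : ∃ y ∈ S, R y v ∧ L y = 1 := by
  have hL' := mem_Lab.1 hL
  have hne2 : ¬ (v ∉ W ∧ ∀ y, R y v → L y = 0) := fun h => by
    have := (hL'.2 v hv).1.2 h
    rw [h1] at this; exact absurd this (by decide)
  have hne0 : ¬ ∃ y, R y v ∧ L y = 2 := fun h => by
    have := (hL'.2 v hv).2.2 h
    rw [h1] at this; exact absurd this (by decide)
  push Not at hne2 hne0
  obtain ⟨y, hR, hy⟩ := hne2 hvW
  have hyS : y ∈ S := by
    by_contra hcon; exact hy (hL'.1 y hcon)
  refine ⟨y, hyS, hR, ?_⟩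
  have h2 := hne0 y hR
  revert h2 hy
  generalize L y = p
  revert p
  decide

lemma not_two_of_und {L : V → Fin 3} (hL : L ∈ Lab R S W) (hv : v ∈ S)
    (h1 : L v = 1) {y : V} (hR : R y v) : L y ≠ 2 := by
  intro h
  have := ((mem_Lab.1 hL).2 v hv).2.2 ⟨y, hR, h⟩
  rw [h1] at this; exact absurd this (by decide)

/-- numeric inequality for the generic branching -/
lemma num_ineq (d : ℕ) (hd : 2 ≤ d) : (1 + (d : ℝ)) + (20 / 17) ^ d ≤ s3 ^ (d + 1) := by
  induction d, hd using Nat.le_induction with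
  | base =>
    have h := s3_sq
    have h1 := s3_gt
    have : s3 ^ (2 + 1) = 3 * s3 := by rw [pow_succ, h]
    rw [this]
    norm_num
    linarith
  | succ d hd ih =>
    have h1 := s3_gt
    have hpos : (0 : ℝ) ≤ (20 / 17) ^ d := by positivity
    have hd' : (2 : ℝ) ≤ d := by exact_mod_cast hd
    have e1 : s3 ^ (d + 1 + 1) = s3 ^ (d + 1) * s3 := pow_succ _ _
    have e2 : ((20 : ℝ) / 17) ^ (d + 1) = (20 / 17) ^ d * (20 / 17) := pow_succ _ _
    rw [e1, e2]
    push_cast
    nlinarith

/-- Crossing numbers: the neighbourhood of `v` is a single vertex attacking it. -/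
lemma und_pair_le {w : V} (hirr : ∀ x, ¬ R x x) (hv : v ∈ S) (hvW : v ∉ W)
    (hnb : nb R S v = {w})
    (IH : ∀ T, T ⊂ S → ∀ W', ((Lab R T W').card : ℝ) ≤ Phi T W') :
    (((Lab R S W).filter (fun L => L v = 1)).card : ℝ) ≤ Phi (S \ insert v (nb R S v)) W := by
  have hw : w ∈ nb R S v := by rw [hnb]; simp
  have hwS : w ∈ S := nb_subset hw
  have hwv : w ≠ v := fun e => notMem_nb hirr (e ▸ hw)
  have h1 := card_und (R := R) (S := S) (W := W) (v := v) (P := fun L => L v = 1)
    (Q := fun L => L w = 1) hv (by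
      intro L hL h1
      refine ⟨h1, ?_⟩
      rw [Function.update_of_ne hwv]
      obtain ⟨y, hyS, hR, hy⟩ := und_attacker hL hv hvW h1
      have : y ∈ nb R S v := mem_nb.2 ⟨hyS, Or.inr hR⟩
      rw [hnb, mem_singleton] at this
      rwa [this] at hy)
  have hwS' : w ∈ S.erase v := mem_erase.2 ⟨hwv, hwS⟩
  have h2 := card_und_le (R := R) (S := S.erase v) (W := W ∪ nb R S v) (v := w) hwS'
  have h3 := IH ((S.erase v).erase w) (Finset.ssubset_of_subset_of_ssubset (erase_subset _ _)
    (erase_ssubset hv)) ((W ∪ nb R S v) ∪ nb R (S.erase v) w)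
  have h4 : (S.erase v).erase w = S \ insert v (nb R S v) := by
    rw [hnb]
    ext x
    simp only [mem_erase, mem_sdiff, mem_insert, mem_singleton, not_or]
    tauto
  rw [h4] at h3
  have h5 : Phi (S \ insert v (nb R S v)) ((W ∪ nb R S v) ∪ nb R (S.erase v) w)
      ≤ Phi (S \ insert v (nb R S v)) W :=
    Phi_anti (subset_union_left.trans subset_union_left)
  rw [h4] at h2
  have h6 : (((Lab R S W).filter (fun L => L v = 1)).card : ℝ) ≤
      (Lab R (S \ insert v (nb R S v)) ((W ∪ nb R S v) ∪ nb R (S.erase v) w)).card := by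
    exact_mod_cast h1.trans h2
  linarith

/-- **Claim A.** -/
theorem boundA (hirr : ∀ x, ¬ R x x) : ∀ S W : Finset V, ((Lab R S W).card : ℝ) ≤ Phi S W := by
  intro S
  induction S using Finset.strongInduction with
  | H S IH =>
  intro W
  by_cases hall : ∀ x ∈ S, x ∈ W
  · have h1 : ((Lab R S W).card : ℝ) ≤ 1 := by exact_mod_cast card_le_one_of_weak hall
    linarith [one_le_Phi S W]
  push Not at hall
  obtain ⟨v, hvf, hmin⟩ := exists_min_image (S.filter (fun x => x ∉ W))
    (fun x => Phi (insert x (nb R S x)) W) (by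
      obtain ⟨x, hx, hxW⟩ := hall
      exact ⟨x, mem_filter.2 ⟨hx, hxW⟩⟩)
  obtain ⟨hv, hvW⟩ := mem_filter.1 hvf
  set X : ℝ := Phi (S \ insert v (nb R S v)) W with hX
  have hXpos : 0 < X := Phi_pos _ _
  have hS : Phi S W = X * (s3 * Phi (nb R S v) W) := by
    rw [← Phi_sdiff W (D_subset (R := R) hv), Phi_insert W (notMem_nb hirr), wt_of_notMem hvW]
  have hs3 := s3_gt
  have hs3' := s3_lt
  have hsq := s3_sq
  -- bound for in-branches
  have hin : ∀ b ∈ S, b ∉ W → (((Lab R S W).filter (fun L => L b = 2)).card : ℝ) ≤ X := by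
    intro b hb hbW
    have h1 : (((Lab R S W).filter (fun L => L b = 2)).card : ℝ) ≤
        (Lab R (S \ insert b (nb R S b)) W).card := by exact_mod_cast card_in_le hb
    have h2 := IH _ (sdiff_D_ssubset (R := R) hb) W
    have h3 := hmin b (mem_filter.2 ⟨hb, hbW⟩)
    have h4 := Phi_sdiff W (D_subset (R := R) hb)
    have h5 := Phi_sdiff W (D_subset (R := R) hv)
    have h6 := Phi_pos (S \ insert b (nb R S b)) W
    have h7 := Phi_pos (insert v (nb R S v)) W
    have h8 := Phi_pos (insert b (nb R S b)) W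
    have h9 : Phi (S \ insert b (nb R S b)) W ≤ X := by
      by_contra hcon
      push Not at hcon
      nlinarith
    linarith
  have hN := card_split (Lab R S W) v
  have hN' : ((Lab R S W).card : ℝ) = (((Lab R S W).filter (fun L => L v = 2)).card : ℝ)
      + (((Lab R S W).filter (fun L => L v = 1)).card : ℝ)
      + (((Lab R S W).filter (fun L => L v = 0)).card : ℝ) := by exact_mod_cast hN
  have h2 := hin v hv hvW
  -- no attackers
  by_cases hatt : ∀ y ∈ S, ¬ R y v
  · have e : (Lab R S W).filter (fun L => L v = 2) = Lab R S W :=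
      filter_true_of_mem fun L hL => eq_two_of_unattacked hL hv hvW hatt
    rw [e] at h2
    have := one_le_Phi (nb R S v) W
    rw [hS]
    nlinarith [mul_le_mul_of_nonneg_left this (mul_pos hXpos (by linarith : 0 < s3)).le]
  by_cases hout : ∀ y ∈ S, ¬ R v y
  · have h1 : ((Lab R S W).card : ℝ) ≤ (Lab R (S.erase v) W).card := by
      exact_mod_cast card_drop hv hout
    have h3 := IH _ (erase_ssubset hv) W
    have h4 := Phi_mono W (erase_subset v S)
    linarith
  push Not at hatt hout
  obtain ⟨y0, hy0S, hy0R⟩ := hatt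
  obtain ⟨y1, hy1S, hy1R⟩ := hout
  -- the out-branch
  set ds := ((nb R S v).filter (fun x => x ∉ W)).card with hds
  set dw := ((nb R S v).filter (fun x => x ∈ W)).card with hdw
  have hdd : ds + dw = (nb R S v).card := by
    rw [hds, hdw, add_comm]
    exact card_filter_add_card_filter_not (s := nb R S v) (fun x => x ∈ W)
  have hPhinb : Phi (nb R S v) W = s3 ^ ds * (20 / 17) ^ dw := Phi_eq_pow _ _
  have h0 : (((Lab R S W).filter (fun L => L v = 0)).card : ℝ) ≤ ds * X := by
    classical
    have h1 := card_out_le (R := R) (S := S) (W := W) hv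
    have h3 : ((∑ b ∈ (nb R S v).filter (fun b => b ∉ W ∧ R b v),
        ((Lab R S W).filter (fun L => L b = 2)).card : ℕ) : ℝ) ≤
        ∑ b ∈ (nb R S v).filter (fun b => b ∉ W ∧ R b v), X := by
      push_cast
      refine sum_le_sum fun b hb => ?_
      obtain ⟨hb1, hb2, -⟩ := mem_filter.1 hb
      exact hin b (nb_subset hb1) hb2
    have h4 : ((nb R S v).filter (fun b => b ∉ W ∧ R b v)).card ≤ ds := by
      refine card_le_card fun x hx => ?_
      obtain ⟨hb1, hb2, -⟩ := mem_filter.1 hx
      exact mem_filter.2 ⟨hb1, hb2⟩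
    rw [sum_const, nsmul_eq_mul] at h3
    have h5 : (((nb R S v).filter (fun b => b ∉ W ∧ R b v)).card : ℝ) ≤ ds := by exact_mod_cast h4
    have h6 : (((Lab R S W).filter (fun L => L v = 0)).card : ℝ) ≤
        ((∑ b ∈ (nb R S v).filter (fun b => b ∉ W ∧ R b v),
        ((Lab R S W).filter (fun L => L b = 2)).card : ℕ) : ℝ) := by exact_mod_cast h1
    nlinarith
  -- the undecided branch
  have h1 : (((Lab R S W).filter (fun L => L v = 1)).card : ℝ) ≤ X * (20 / 17) ^ (ds + dw) := by
    have h1 : (((Lab R S W).filter (fun L => L v = 1)).card : ℝ) ≤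
        (Lab R (S.erase v) (W ∪ nb R S v)).card := by exact_mod_cast card_und_le hv
    have h3 := IH _ (erase_ssubset hv) (W ∪ nb R S v)
    have h4 : Phi (S.erase v) (W ∪ nb R S v) ≤ X * (20 / 17) ^ (ds + dw) := by
      have hsub : nb R S v ⊆ S.erase v := fun x hx =>
        mem_erase.2 ⟨fun e => notMem_nb hirr (e ▸ hx), nb_subset hx⟩
      have e1 : (S.erase v) \ nb R S v = S \ insert v (nb R S v) := by
        ext x
        simp only [mem_erase, mem_sdiff, mem_insert, not_or]
        tauto
      rw [← Phi_sdiff _ hsub, e1, Phi_all_weak subset_union_right, hdd]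
      exact mul_le_mul_of_nonneg_right (Phi_anti subset_union_left) (by positivity)
    linarith
  have hτpos : ∀ k : ℕ, (1 : ℝ) ≤ (20 / 17) ^ k := fun k => one_le_pow₀ (by norm_num)
  have hSle : Phi S W = X * (s3 ^ (ds + 1) * (20 / 17) ^ dw) := by
    rw [hS, hPhinb]; ring
  -- case analysis
  rcases Nat.lt_or_ge ds 2 with hlt | hge
  · -- ds = 0 or 1
    by_cases hone : (nb R S v).card = 1
    · -- a single neighbour
      obtain ⟨w, hw⟩ := card_eq_one.1 hone
      have h1' := und_pair_le (W := W) hirr hv hvW hw IH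
      rw [hN', hSle]
      have hds01 : ds = 0 ∧ dw = 1 ∨ ds = 1 ∧ dw = 0 := by omega
      rcases hds01 with ⟨e1, e2⟩ | ⟨e1, e2⟩
      · rw [e1, Nat.cast_zero, zero_mul] at h0
        rw [e1, e2]
        have : X * (s3 ^ (0 + 1) * (20 / 17) ^ 1) = X * (s3 * (20 / 17)) := by ring
        rw [this]
        nlinarith
      · rw [e1, Nat.cast_one, one_mul] at h0
        rw [e1, e2]
        have : X * (s3 ^ (1 + 1) * (20 / 17) ^ 0) = X * 3 := by
          rw [← hsq]; ring
        rw [this]
        linarith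
    · have hne : (nb R S v).card ≠ 0 := by
        intro h
        have := card_eq_zero.1 h
        have h3 : y0 ∈ nb R S v := mem_nb.2 ⟨hy0S, Or.inr hy0R⟩
        rw [this] at h3
        simp at h3
      have hds01 : ds = 0 ∨ ds = 1 := by omega
      rcases hds01 with e1 | e1
      · -- ds = 0, dw ≥ 2
        have hdw2 : 2 ≤ dw := by omega
        rw [e1, Nat.cast_zero, zero_mul] at h0
        -- und: crude bound
        have h1' : (((Lab R S W).filter (fun L => L v = 1)).card : ℝ) * s3 ≤ Phi S W := by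
          have h3 : (((Lab R S W).filter (fun L => L v = 1)).card : ℝ) ≤
              (Lab R (S.erase v) (W ∪ nb R S v)).card := by exact_mod_cast card_und_le hv
          have h4 := IH _ (erase_ssubset hv) (W ∪ nb R S v)
          have h5 : Phi (S.erase v) (W ∪ nb R S v) ≤ Phi (S.erase v) W :=
            Phi_anti subset_union_left
          have h6 := Phi_erase W hv
          rw [wt_of_notMem hvW] at h6
          nlinarith
        have hp2 : ((20 : ℝ) / 17) ^ 2 ≤ (20 / 17) ^ dw := pow_le_pow_right₀ (by norm_num) hdw2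
        have hS2 : Phi S W = X * (s3 * (20 / 17) ^ dw) := by rw [hSle, e1]; ring
        have hS3 : X * (s3 * (20 / 17) ^ 2) ≤ Phi S W := by
          rw [hS2]
          have : 0 ≤ X * s3 := by positivity
          nlinarith
        rw [hN']
        -- N2 ≤ X, N1 * s3 ≤ Phi, X * s3 * (400/289) ≤ Phi
        have hN1 : (((Lab R S W).filter (fun L => L v = 1)).card : ℝ) ≤ Phi S W / s3 := by
          rw [le_div_iff₀ (by linarith)]; exact h1'
        have hX2 : X ≤ Phi S W / s3 * (289 / 400) := by
          rw [div_mul_eq_mul_div, le_div_iff₀ (by linarith)]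
          nlinarith
        have hfin : Phi S W / s3 * (1 + 289 / 400) ≤ Phi S W := by
          rw [div_mul_eq_mul_div, div_le_iff₀ (by linarith)]
          have := Phi_pos S W
          nlinarith
        linarith
      · -- ds = 1, dw ≥ 1
        have hdw1 : 1 ≤ dw := by omega
        rw [e1, Nat.cast_one, one_mul] at h0
        rw [hN', hSle, e1]
        rw [e1] at h1
        have e3 : s3 ^ (1 + 1) = 3 := by rw [← hsq]
        have e4 : ((20 : ℝ) / 17) ^ (1 + dw) = 20 / 17 * (20 / 17) ^ dw := by rw [pow_add]; ring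
        rw [e3]
        rw [e4] at h1
        have hp1 : ((20 : ℝ) / 17) ^ 1 ≤ (20 / 17) ^ dw := pow_le_pow_right₀ (by norm_num) hdw1
        rw [pow_one] at hp1
        nlinarith [mul_le_mul_of_nonneg_left hp1 hXpos.le]
  · -- ds ≥ 2
    have hnum := num_ineq ds hge
    rw [hN', hSle]
    have hp := hτpos dw
    have e4 : ((20 : ℝ) / 17) ^ (ds + dw) = (20 / 17) ^ ds * (20 / 17) ^ dw := pow_add _ _ _
    rw [e4] at h1
    have hds0 : (0 : ℝ) ≤ ds := Nat.cast_nonneg _
    have hXp : 0 ≤ X * (20 / 17) ^ dw := by positivity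
    have k1 : X * (20 / 17) ^ dw * ((1 + (ds : ℝ)) + (20 / 17) ^ ds) ≤
        X * (20 / 17) ^ dw * s3 ^ (ds + 1) := mul_le_mul_of_nonneg_left hnum hXp
    have k2 : X * (1 + (ds : ℝ)) ≤ X * (20 / 17) ^ dw * (1 + (ds : ℝ)) := by
      have : X * 1 ≤ X * (20 / 17) ^ dw := mul_le_mul_of_nonneg_left hp hXpos.le
      nlinarith
    nlinarith

end Pool.Agent.MP_acab80_co
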