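import Pool.Agent.MP_acab80_co.BoundA

/-!
# The upper bound `4 * √3 ^ (n - 3)` for odd `n ≥ 3`
-/

open Finset

namespace Pool.Agent.MP_acab80_co

variable {V : Type*} [DecidableEq V] [Fintype V] {R : V → V → Prop} {S W : Finset V} {v : V}

lemma card_Lab_le (hirr : ∀ x, ¬ R x x) {T W D : Finset V} (m : ℕ) (hD : D ⊆ T) (hDW : D ⊆ W)
    (hc : T.card ≤ m + D.card) : ((Lab R T W).card : ℝ) ≤ s3 ^ m * (20 / 17) ^ D.card := by
  have h1 := boundA (R := R) hirr T W
  have h2 := Phi_sdiff W hD
  have h3 := Phi_all_weak hDW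
  have h4 := Phi_le_pow (T \ D) W
  have h5 : (T \ D).card ≤ m := by
    have := card_sdiff_add_card_eq_card hD
    omega
  have h6 : s3 ^ (T \ D).card ≤ s3 ^ m := pow_le_pow_right₀ (by linarith [s3_gt]) h5
  rw [h3] at h2
  have h7 : (0 : ℝ) < (20 / 17) ^ D.card := by positivity
  rw [← h2] at h1
  calc ((Lab R T W).card : ℝ) ≤ Phi (T \ D) W * (20 / 17) ^ D.card := h1
    _ ≤ s3 ^ m * (20 / 17) ^ D.card := mul_le_mul_of_nonneg_right (h4.trans h6) h7.le

lemma card_Lab_le_pow (hirr : ∀ x, ¬ R x x) {T W : Finset V} (m : ℕ)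
    (hc : T.card ≤ m) : ((Lab R T W).card : ℝ) ≤ s3 ^ m := by
  have := card_Lab_le (R := R) hirr (T := T) (W := W) (D := ∅) m (by simp) (by simp) (by simpa)
  simpa using this

lemma card_le_one_of_card (hirr : ∀ x, ¬ R x x) (h : S.card ≤ 1) : (Lab R S W).card ≤ 1 := by
  rw [card_le_one]
  have key : ∀ L ∈ Lab R S W, ∀ x, L x = if x ∈ S then (if x ∈ W then 1 else 2) else 0 := by
    intro L hL x
    have hL' := mem_Lab.1 hL
    by_cases hx : x ∈ S
    · rw [if_pos hx]
      have hS : S = {x} := by
        refine eq_singleton_iff_unique_mem.2 ⟨hx, fun y hy => ?_⟩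
        exact card_le_one.1 h y hy x hx
      have hun : ∀ y ∈ S, ¬ R y x := by
        intro y hy
        rw [hS, mem_singleton] at hy
        rw [hy]; exact hirr x
      by_cases hxW : x ∈ W
      · rw [if_pos hxW]
        have h2 : L x ≠ 2 := fun h2 => ((hL'.2 x hx).1.1 h2).1 hxW
        have h0 : L x ≠ 0 := by
          intro h0
          obtain ⟨y, hR, hy⟩ := (hL'.2 x hx).2.1 h0
          by_cases hyS : y ∈ S
          · exact hun y hyS hR
          · rw [hL'.1 y hyS] at hy; exact absurd hy (by decide)
        revert h2 h0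
        generalize L x = p
        revert p
        decide
      · rw [if_neg hxW]
        exact eq_two_of_unattacked hL hx hxW hun
    · rw [if_neg hx]; exact hL'.1 x hx
  intro L hL L' hL'
  funext x
  rw [key L hL x, key L' hL' x]

lemma num_ineq' (d : ℕ) (hd : 3 ≤ d) : (1 + (d : ℝ)) + (20 / 17) ^ d ≤ 4 * s3 ^ (d - 2) := by
  induction d, hd using Nat.le_induction with
  | base =>
    have h1 := s3_gt
    norm_num
    linarith
  | succ d hd ih =>
    have h1 := s3_gt
    have hpos : (0 : ℝ) ≤ (20 / 17) ^ d := by positivity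
    have hd' : (3 : ℝ) ≤ d := by exact_mod_cast hd
    have e0 : d + 1 - 2 = (d - 2) + 1 := by omega
    have e1 : s3 ^ (d + 1 - 2) = s3 ^ (d - 2) * s3 := by rw [e0]; exact pow_succ _ _
    have e2 : ((20 : ℝ) / 17) ^ (d + 1) = (20 / 17) ^ d * (20 / 17) := pow_succ _ _
    rw [e1, e2]
    push_cast
    nlinarith

omit [Fintype V] in
lemma other_nb {u x : V} (hc : (nb R S u).card = 2) (hx : x ∈ nb R S u) :
    ∃ y, y ≠ x ∧ nb R S u = {x, y} := by
  obtain ⟨p, q, hpq, h⟩ := card_eq_two.1 hc
  rw [h] at hx
  rcases mem_insert.1 hx with e | e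
  · exact ⟨q, e ▸ hpq.symm, by rw [h, e]⟩
  · rw [mem_singleton] at e
    exact ⟨p, e ▸ hpq, by rw [h, e, pair_comm]⟩

omit [Fintype V] [DecidableEq V] in
lemma nb_symm {x y : V} (hx : x ∈ S) (h : y ∈ nb R S x) : x ∈ nb R S y :=
  mem_nb.2 ⟨hx, (mem_nb.1 h).2.symm⟩

/-- An out vertex has an attacker that is in. -/
lemma out_attacker {L : V → Fin 3} (hL : L ∈ Lab R S W) (hv : v ∈ S)
    (h0 : L v = 0) : ∃ y ∈ nb R S v, R y v ∧ L y = 2 := by
  have hL' := mem_Lab.1 hL
  obtain ⟨y, hR, hy⟩ := (hL'.2 v hv).2.1 h0
  have hyS : y ∈ S := by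
    by_contra hcon
    rw [hL'.1 y hcon] at hy; exact absurd hy (by decide)
  exact ⟨y, mem_nb.2 ⟨hyS, Or.inr hR⟩, hR, hy⟩

lemma in_nb_out {L : V → Fin 3} (hL : L ∈ Lab R S W) (hv : v ∈ S)
    (h2 : L v = 2) {y : V} (hy : y ∈ nb R S v) : L y = 0 := by
  have hL' := mem_Lab.1 hL
  rcases (mem_nb.1 hy).2 with h | h
  · exact (hL'.2 y (mem_nb.1 hy).1).2.2 ⟨v, h, h2⟩
  · exact ((hL'.2 v hv).1.1 h2).2 y h

lemma card_filter_or {α : Type*} {F : Finset α} {P Q1 Q2 : α → Prop} [DecidablePred P]
    [DecidablePred Q1] [DecidablePred Q2] (h : ∀ L ∈ F, P L → Q1 L ∨ Q2 L) :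
    (F.filter P).card ≤ (F.filter Q1).card + (F.filter Q2).card := by
  classical
  refine (card_le_card (t := F.filter Q1 ∪ F.filter Q2) ?_).trans (card_union_le _ _)
  intro L hL
  rw [mem_filter] at hL
  rcases h L hL.1 hL.2 with h | h
  · exact mem_union_left _ (mem_filter.2 ⟨hL.1, h⟩)
  · exact mem_union_right _ (mem_filter.2 ⟨hL.1, h⟩)

lemma fin3_one {p : Fin 3} (h0 : p ≠ 0) (h2 : p ≠ 2) : p = 1 := by
  revert p; decide

lemma fin3_cases (p : Fin 3) : p = 2 ∨ p = 1 ∨ p = 0 := by
  revert p; decide

/-- The situation of the exceptional case: all degree-two vertices have both neighbours of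
degree two and are attacked by them. -/
structure Exc (R : V → V → Prop) (S W : Finset V) : Prop where
  irr : ∀ x, ¬ R x x
  strong : ∀ x ∈ S, x ∉ W
  symm2 : ∀ u ∈ S, (nb R S u).card = 2 → ∀ w ∈ nb R S u, R w u ∧ (nb R S w).card = 2

omit [Fintype V] in
lemma card_D {S : Finset V} (hirr : ∀ x, ¬ R x x) {v : V} (hv : v ∈ S) (k : ℕ)
    (h : k ≤ (nb R S v).card) (m : ℕ) (hm : S.card = m + (k + 1)) :
    (S \ insert v (nb R S v)).card ≤ m := by
  have h1 := card_sdiff_add_card_eq_card (D_subset (R := R) hv)
  have h2 : (insert v (nb R S v)).card = (nb R S v).card + 1 :=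
    card_insert_of_notMem (notMem_nb hirr)
  omega

/-- Triangle component. -/
lemma exc_triangle (h : Exc R S W) {v a b : V} (hv : v ∈ S) (hab : a ≠ b)
    (hnv : nb R S v = {a, b}) (hna : nb R S a = {v, b}) (hnb : nb R S b = {v, a})
    (m : ℕ) (hm : S.card = m + 3) : ((Lab R S W).card : ℝ) ≤ 4 * s3 ^ m := by
  have hva : v ≠ a := fun e => notMem_nb (S := S) h.irr (v := v) (by rw [hnv, e]; simp)
  have hvb : v ≠ b := fun e => notMem_nb (S := S) h.irr (v := v) (by rw [hnv, e]; simp)
  have ha : a ∈ S := nb_subset (R := R) (v := v) (by rw [hnv]; simp)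
  have hb : b ∈ S := nb_subset (R := R) (v := v) (by rw [hnv]; simp)
  have cv : (nb R S v).card = 2 := by rw [hnv]; exact card_pair hab
  have ca : (nb R S a).card = 2 := by rw [hna]; exact card_pair hvb
  have cb : (nb R S b).card = 2 := by rw [hnb]; exact card_pair hva
  have Rav : R a v := (h.symm2 v hv cv a (by rw [hnv]; simp)).1
  have Rbv : R b v := (h.symm2 v hv cv b (by rw [hnv]; simp)).1
  have in_le : ∀ x ∈ S, (nb R S x).card = 2 →
      (((Lab R S W).filter (fun L => L x = 2)).card : ℝ) ≤ s3 ^ m := by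
    intro x hx hc
    have h1 : (((Lab R S W).filter (fun L => L x = 2)).card : ℝ) ≤
        (Lab R (S \ insert x (nb R S x)) W).card := by exact_mod_cast card_in_le hx
    exact h1.trans (card_Lab_le_pow h.irr m (card_D h.irr hx 2 hc.ge m hm))
  have h2 := in_le v hv cv
  have ha2 := in_le a ha ca
  have hb2 := in_le b hb cb
  have h0 : ((Lab R S W).filter (fun L => L v = 0)).card ≤
      ((Lab R S W).filter (fun L => L a = 2)).card +
        ((Lab R S W).filter (fun L => L b = 2)).card := by
    refine card_filter_or fun L hL hLv => ?_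
    obtain ⟨y, hy, -, hy2⟩ := out_attacker hL hv hLv
    rw [hnv, mem_insert, mem_singleton] at hy
    rcases hy with e | e
    · left; rw [← e]; exact hy2
    · right; rw [← e]; exact hy2
  have h1 : ((Lab R S W).filter (fun L => L v = 1)).card ≤
      (Lab R (((S.erase v).erase a).erase b)
        ((W ∪ nb R S v ∪ nb R (S.erase v) a) ∪ nb R ((S.erase v).erase a) b)).card := by
    have s1 := card_und (R := R) (S := S) (W := W) (v := v) (P := fun L => L v = 1)
      (Q := fun L => L a = 1 ∧ L b = 1) hv (by
        intro L hL h1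
        refine ⟨h1, ?_⟩
        rw [Function.update_of_ne hva.symm, Function.update_of_ne hvb.symm]
        have na2 := not_two_of_und hL hv h1 Rav
        have nb2 := not_two_of_und hL hv h1 Rbv
        constructor
        · refine fin3_one (fun e => ?_) na2
          obtain ⟨y, hy, -, hy2⟩ := out_attacker hL ha e
          rw [hna, mem_insert, mem_singleton] at hy
          rcases hy with e | e
          · rw [e, h1] at hy2; exact absurd hy2 (by decide)
          · rw [e] at hy2; exact nb2 hy2
        · refine fin3_one (fun e => ?_) nb2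
          obtain ⟨y, hy, -, hy2⟩ := out_attacker hL hb e
          rw [hnb, mem_insert, mem_singleton] at hy
          rcases hy with e | e
          · rw [e, h1] at hy2; exact absurd hy2 (by decide)
          · rw [e] at hy2; exact na2 hy2)
    have ha' : a ∈ S.erase v := mem_erase.2 ⟨hva.symm, ha⟩
    have hb' : b ∈ (S.erase v).erase a := mem_erase.2 ⟨hab.symm, mem_erase.2 ⟨hvb.symm, hb⟩⟩
    have s2 := card_und (R := R) (S := S.erase v) (W := W ∪ nb R S v) (v := a)
      (P := fun L => L a = 1 ∧ L b = 1) (Q := fun L => L b = 1) ha' (by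
        rintro L hL ⟨e1, e2⟩
        refine ⟨e1, ?_⟩
        rw [Function.update_of_ne hab.symm]; exact e2)
    have s3 := card_und_le (R := R) (S := (S.erase v).erase a)
      (W := W ∪ nb R S v ∪ nb R (S.erase v) a) (v := b) hb'
    exact s1.trans (s2.trans s3)
  have h1' : (((Lab R S W).filter (fun L => L v = 1)).card : ℝ) ≤ s3 ^ m := by
    have e1 : (((Lab R S W).filter (fun L => L v = 1)).card : ℝ) ≤
      (Lab R (((S.erase v).erase a).erase b)
        ((W ∪ nb R S v ∪ nb R (S.erase v) a) ∪ nb R ((S.erase v).erase a) b)).card := by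
      exact_mod_cast h1
    refine e1.trans (card_Lab_le_pow h.irr m ?_)
    have ha' : a ∈ S.erase v := mem_erase.2 ⟨hva.symm, ha⟩
    have hb' : b ∈ (S.erase v).erase a := mem_erase.2 ⟨hab.symm, mem_erase.2 ⟨hvb.symm, hb⟩⟩
    rw [card_erase_of_mem hb', card_erase_of_mem ha', card_erase_of_mem hv]
    omega
  have hN := card_split (Lab R S W) v
  have hN' : ((Lab R S W).card : ℝ) = (((Lab R S W).filter (fun L => L v = 2)).card : ℝ)
      + (((Lab R S W).filter (fun L => L v = 1)).card : ℝ)
      + (((Lab R S W).filter (fun L => L v = 0)).card : ℝ) := by exact_mod_cast hN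
  have h0' : (((Lab R S W).filter (fun L => L v = 0)).card : ℝ) ≤
      (((Lab R S W).filter (fun L => L a = 2)).card : ℝ) +
        (((Lab R S W).filter (fun L => L b = 2)).card : ℝ) := by exact_mod_cast h0
  linarith

/-- Counting the labellings with `b` in, `a` out for the path `a' - a - v - b - b'`. -/
lemma exc_path_out (h : Exc R S W) {v a b a' b' : V}
    (hab : a ≠ b) (hnv : nb R S v = {a, b}) (hna : nb R S a = {v, a'}) (hnb : nb R S b = {v, b'})
    (hav : a' ≠ v) (ha'b : a' ≠ b) (ha'b' : a' ≠ b') :
    ((Lab R S W).filter (fun L => L a = 0 ∧ L b = 2)).card ≤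
      (Lab R ((S \ insert b (nb R S b)) \ insert a' (nb R (S \ insert b (nb R S b)) a')) W).card ∧
    ((Lab R S W).filter (fun L => L a = 1 ∧ L b = 2)).card ≤
      (Lab R (((S \ insert b (nb R S b)).erase a').erase a)
        ((W ∪ nb R (S \ insert b (nb R S b)) a') ∪
          nb R ((S \ insert b (nb R S b)).erase a') a)).card := by
  have hva : v ≠ a := fun e => notMem_nb (S := S) h.irr (v := v) (by rw [hnv, e]; simp)
  have hvb : v ≠ b := fun e => notMem_nb (S := S) h.irr (v := v) (by rw [hnv, e]; simp)
  have ha : a ∈ S := nb_subset (R := R) (v := v) (by rw [hnv]; simp)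
  have hb : b ∈ S := nb_subset (R := R) (v := v) (by rw [hnv]; simp)
  have ha' : a' ∈ S := nb_subset (R := R) (v := a) (by rw [hna]; simp)
  have ha'a : a' ≠ a := fun e => notMem_nb (S := S) h.irr (v := a) (by rw [hna, e]; simp)
  -- a is not b'
  have hab' : a ≠ b' := by
    intro e
    have : b ∈ nb R S a := nb_symm hb (by rw [hnb, e]; simp)
    rw [hna, mem_insert, mem_singleton] at this
    rcases this with e | e
    · exact hvb e.symm
    · exact ha'b e.symm
  have hD : ∀ x, x ∈ S \ insert b (nb R S b) ↔ x ∈ S ∧ x ≠ b ∧ x ≠ v ∧ x ≠ b' := by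
    intro x
    rw [hnb]
    simp only [mem_sdiff, mem_insert, mem_singleton, not_or]
  have haD : a ∈ S \ insert b (nb R S b) := (hD a).2 ⟨ha, hab, hva.symm, hab'⟩
  have ha'D : a' ∈ S \ insert b (nb R S b) := (hD a').2 ⟨ha', ha'b, hav, ha'b'⟩
  have hvnb : v ∈ nb R S b := by rw [hnb]; simp
  constructor
  · have s1 := card_in (R := R) (S := S) (W := W) (v := b) (P := fun L => L a = 0 ∧ L b = 2)
      (Q := fun L => L a' = 2) hb (by
        rintro L hL ⟨e0, e2⟩
        refine ⟨e2, ?_⟩
        rw [Function.update_of_ne ha'b]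
        obtain ⟨y, hy, -, hy2⟩ := out_attacker hL ha e0
        rw [hna, mem_insert, mem_singleton] at hy
        rcases hy with e | e
        · have := in_nb_out hL hb e2 hvnb
          rw [e, this] at hy2
          exact absurd hy2 (by decide)
        · rw [← e]; exact hy2)
    have s2 := card_in_le (R := R) (S := S \ insert b (nb R S b)) (W := W) ha'D
    exact s1.trans s2
  · have s1 := card_in (R := R) (S := S) (W := W) (v := b) (P := fun L => L a = 1 ∧ L b = 2)
      (Q := fun L => L a' = 1 ∧ L a = 1) hb (by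
        rintro L hL ⟨e1, e2⟩
        refine ⟨e2, ?_⟩
        rw [Function.update_of_ne ha'b, Function.update_of_ne hab]
        refine ⟨?_, e1⟩
        obtain ⟨y, hyS, hRy, hy1⟩ := und_attacker hL ha (h.strong a ha) e1
        have hy : y ∈ nb R S a := mem_nb.2 ⟨hyS, Or.inr hRy⟩
        rw [hna, mem_insert, mem_singleton] at hy
        rcases hy with e | e
        · have := in_nb_out hL hb e2 hvnb
          rw [e, this] at hy1
          exact absurd hy1 (by decide)
        · rw [← e]; exact hy1)
    have s2 := card_und (R := R) (S := S \ insert b (nb R S b)) (W := W) (v := a')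
      (P := fun L => L a' = 1 ∧ L a = 1) (Q := fun L => L a = 1) ha'D (by
        rintro L hL ⟨e1, e2⟩
        refine ⟨e1, ?_⟩
        rw [Function.update_of_ne ha'a.symm]; exact e2)
    have haD' : a ∈ (S \ insert b (nb R S b)).erase a' := mem_erase.2 ⟨ha'a.symm, haD⟩
    have s3 := card_und_le (R := R) (S := (S \ insert b (nb R S b)).erase a')
      (W := W ∪ nb R (S \ insert b (nb R S b)) a') haD'
    exact s1.trans (s2.trans s3)

/-- The exceptional case. -/
lemma exc_case (h : Exc R S W) {v : V} (hv : v ∈ S) (hc : (nb R S v).card = 2)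
    (m : ℕ) (hm : S.card = m + 3) : ((Lab R S W).card : ℝ) ≤ 4 * s3 ^ m := by
  obtain ⟨a, b, hab, hnv⟩ := card_eq_two.1 hc
  have hva : v ≠ a := fun e => notMem_nb (S := S) h.irr (v := v) (by rw [hnv, e]; simp)
  have hvb : v ≠ b := fun e => notMem_nb (S := S) h.irr (v := v) (by rw [hnv, e]; simp)
  have ha : a ∈ S := nb_subset (R := R) (v := v) (by rw [hnv]; simp)
  have hb : b ∈ S := nb_subset (R := R) (v := v) (by rw [hnv]; simp)
  obtain ⟨Rav, ca⟩ := h.symm2 v hv hc a (by rw [hnv]; simp)
  obtain ⟨Rbv, cb⟩ := h.symm2 v hv hc b (by rw [hnv]; simp)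
  obtain ⟨a', hav, hna⟩ := other_nb ca (nb_symm hv (by rw [hnv]; simp : a ∈ nb R S v))
  obtain ⟨b', hbv, hnb⟩ := other_nb cb (nb_symm hv (by rw [hnv]; simp : b ∈ nb R S v))
  have ha' : a' ∈ S := nb_subset (R := R) (v := a) (by rw [hna]; simp)
  have hb' : b' ∈ S := nb_subset (R := R) (v := b) (by rw [hnb]; simp)
  have ha'a : a' ≠ a := fun e => notMem_nb (S := S) h.irr (v := a) (by rw [hna, e]; simp)
  have hb'b : b' ≠ b := fun e => notMem_nb (S := S) h.irr (v := b) (by rw [hnb, e]; simp)
  by_cases htri : a' = b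
  · -- triangle
    have : a ∈ nb R S b := nb_symm ha (by rw [hna, htri]; simp : b ∈ nb R S a)
    rw [hnb, mem_insert, mem_singleton] at this
    have e : b' = a := by
      rcases this with e | e
      · exact absurd e.symm hva
      · exact e.symm
    rw [htri] at hna
    rw [e] at hnb
    exact exc_triangle h hv hab hnv hna hnb m hm
  have hab' : a ≠ b' := by
    intro e
    have : b ∈ nb R S a := nb_symm hb (by rw [hnb, e]; simp)
    rw [hna, mem_insert, mem_singleton] at this
    rcases this with e | e
    · exact hvb e.symm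
    · exact htri e.symm
  -- common estimates
  have hs3 := s3_gt
  have hsq := s3_sq
  have hs0 : (0 : ℝ) < s3 := by linarith
  have in_le : ∀ x ∈ S, (nb R S x).card = 2 →
      (((Lab R S W).filter (fun L => L x = 2)).card : ℝ) ≤ s3 ^ m := by
    intro x hx hc
    have h1 : (((Lab R S W).filter (fun L => L x = 2)).card : ℝ) ≤
        (Lab R (S \ insert x (nb R S x)) W).card := by exact_mod_cast card_in_le hx
    exact h1.trans (card_Lab_le_pow h.irr m (card_D h.irr hx 2 hc.ge m hm))
  have h2 := in_le v hv hc
  have ha2 := in_le a ha ca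
  have hN := card_split (Lab R S W) v
  have hN' : ((Lab R S W).card : ℝ) = (((Lab R S W).filter (fun L => L v = 2)).card : ℝ)
      + (((Lab R S W).filter (fun L => L v = 1)).card : ℝ)
      + (((Lab R S W).filter (fun L => L v = 0)).card : ℝ) := by exact_mod_cast hN
  have h0 : ((Lab R S W).filter (fun L => L v = 0)).card ≤
      ((Lab R S W).filter (fun L => L a = 2)).card +
        (((Lab R S W).filter (fun L => L a = 0 ∧ L b = 2)).card +
         ((Lab R S W).filter (fun L => L a = 1 ∧ L b = 2)).card) := by
    have e1 : ((Lab R S W).filter (fun L => L v = 0)).card ≤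
      ((Lab R S W).filter (fun L => L a = 2)).card +
        ((Lab R S W).filter (fun L => (L a = 0 ∨ L a = 1) ∧ L b = 2)).card := by
      refine card_filter_or fun L hL hLv => ?_
      obtain ⟨y, hy, -, hy2⟩ := out_attacker hL hv hLv
      rw [hnv, mem_insert, mem_singleton] at hy
      rcases fin3_cases (L a) with e2 | e2 | e2
      · left; exact e2
      · right
        refine ⟨Or.inr e2, ?_⟩
        rcases hy with e | e
        · rw [e, e2] at hy2; exact absurd hy2 (by decide)
        · rw [← e]; exact hy2
      · right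
        refine ⟨Or.inl e2, ?_⟩
        rcases hy with e | e
        · rw [e, e2] at hy2; exact absurd hy2 (by decide)
        · rw [← e]; exact hy2
    have e2 : ((Lab R S W).filter (fun L => (L a = 0 ∨ L a = 1) ∧ L b = 2)).card ≤
        ((Lab R S W).filter (fun L => L a = 0 ∧ L b = 2)).card +
         ((Lab R S W).filter (fun L => L a = 1 ∧ L b = 2)).card := by
      refine card_filter_or fun L _ hLv => ?_
      rcases hLv with ⟨e | e, e'⟩
      · exact Or.inl ⟨e, e'⟩
      · exact Or.inr ⟨e, e'⟩
    omega
  have h0' : (((Lab R S W).filter (fun L => L v = 0)).card : ℝ) ≤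
      (((Lab R S W).filter (fun L => L a = 2)).card : ℝ) +
        ((((Lab R S W).filter (fun L => L a = 0 ∧ L b = 2)).card : ℝ) +
         (((Lab R S W).filter (fun L => L a = 1 ∧ L b = 2)).card : ℝ)) := by exact_mod_cast h0
  -- the undecided branch, generic estimate
  have h1 : (((Lab R S W).filter (fun L => L v = 1)).card : ℝ) ≤ s3 ^ m * (20 / 17) ^ 2 := by
    have h1 : (((Lab R S W).filter (fun L => L v = 1)).card : ℝ) ≤
        (Lab R (S.erase v) (W ∪ nb R S v)).card := by exact_mod_cast card_und_le hv
    have hsub : nb R S v ⊆ S.erase v := fun x hx =>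
      mem_erase.2 ⟨fun e => notMem_nb h.irr (e ▸ hx), nb_subset hx⟩
    have h3 := card_Lab_le h.irr (T := S.erase v) (W := W ∪ nb R S v) (D := nb R S v) m hsub
      subset_union_right (by rw [card_erase_of_mem hv]; omega)
    rw [hc] at h3
    exact h1.trans h3
  by_cases hsq4 : a' = b'
  · -- a four-cycle: `a` not in, `b` in is impossible
    have z0 : (Lab R S W).filter (fun L => L a = 0 ∧ L b = 2) = ∅ := by
      rw [filter_eq_empty_iff]
      rintro L hL ⟨e0, e2⟩
      obtain ⟨y, hy, -, hy2⟩ := out_attacker hL ha e0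
      have hvo := in_nb_out hL hb e2 (by rw [hnb]; simp : v ∈ nb R S b)
      have hbo := in_nb_out hL hb e2 (by rw [hnb]; simp : b' ∈ nb R S b)
      rw [hna, mem_insert, mem_singleton] at hy
      rcases hy with e | e
      · rw [e, hvo] at hy2; exact absurd hy2 (by decide)
      · rw [e, hsq4, hbo] at hy2; exact absurd hy2 (by decide)
    have z1 : (Lab R S W).filter (fun L => L a = 1 ∧ L b = 2) = ∅ := by
      rw [filter_eq_empty_iff]
      rintro L hL ⟨e0, e2⟩
      obtain ⟨y, hyS, hRy, hy1⟩ := und_attacker hL ha (h.strong a ha) e0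
      have hy : y ∈ nb R S a := mem_nb.2 ⟨hyS, Or.inr hRy⟩
      have hvo := in_nb_out hL hb e2 (by rw [hnb]; simp : v ∈ nb R S b)
      have hbo := in_nb_out hL hb e2 (by rw [hnb]; simp : b' ∈ nb R S b)
      rw [hna, mem_insert, mem_singleton] at hy
      rcases hy with e | e
      · rw [e, hvo] at hy1; exact absurd hy1 (by decide)
      · rw [e, hsq4, hbo] at hy1; exact absurd hy1 (by decide)
    rw [z0, z1, card_empty, Nat.cast_zero, add_zero, add_zero] at h0'
    have hpow : 0 < s3 ^ m := by positivity
    rw [hN']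
    norm_num at h1
    linarith
  obtain ⟨-, ca'⟩ := h.symm2 a ha ca a' (by rw [hna]; simp)
  obtain ⟨a'', haa, hna'⟩ := other_nb ca' (nb_symm ha (by rw [hna]; simp : a' ∈ nb R S a))
  have ha'' : a'' ∈ S := nb_subset (R := R) (v := a') (by rw [hna']; simp)
  have ha''a' : a'' ≠ a' := fun e => notMem_nb (S := S) h.irr (v := a') (by rw [hna', e]; simp)
  obtain ⟨p0, p1⟩ := exc_path_out h hab hnv hna hnb hav htri hsq4
  have hD : ∀ x, x ∈ S \ insert b (nb R S b) ↔ x ∈ S ∧ x ≠ b ∧ x ≠ v ∧ x ≠ b' := by
    intro x
    rw [hnb]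
    simp only [mem_sdiff, mem_insert, mem_singleton, not_or]
  have haD : a ∈ S \ insert b (nb R S b) := (hD a).2 ⟨ha, hab, hva.symm, hab'⟩
  have ha'D : a' ∈ S \ insert b (nb R S b) := (hD a').2 ⟨ha', htri, hav, hsq4⟩
  -- a'' is neither v nor b
  have ha''v : a'' ≠ v := by
    intro e
    have : a' ∈ nb R S v := nb_symm ha' (by rw [hna', e]; simp)
    rw [hnv, mem_insert, mem_singleton] at this
    rcases this with e | e
    · exact ha'a e
    · exact htri e
  have ha''b : a'' ≠ b := by
    intro e
    have : a' ∈ nb R S b := nb_symm ha' (by rw [hna', e]; simp)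
    rw [hnb, mem_insert, mem_singleton] at this
    rcases this with e | e
    · exact hav e
    · exact hsq4 e
  have cD : (S \ insert b (nb R S b)).card = m := by
    have h1 := card_sdiff_add_card_eq_card (D_subset (R := R) hb)
    have h2 : (insert b (nb R S b)).card = (nb R S b).card + 1 :=
      card_insert_of_notMem (notMem_nb h.irr)
    omega
  have haD' : a ∈ (S \ insert b (nb R S b)).erase a' := mem_erase.2 ⟨ha'a.symm, haD⟩
  have hm2 : 2 ≤ m := by
    have : ({a, a'} : Finset V) ⊆ S \ insert b (nb R S b) := by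
      intro x hx
      rw [mem_insert, mem_singleton] at hx
      rcases hx with e | e
      · rw [e]; exact haD
      · rw [e]; exact ha'D
    have := card_le_card this
    rw [card_pair ha'a.symm, cD] at this
    exact this
  obtain ⟨k, rfl⟩ := Nat.exists_eq_add_of_le hm2
  have hpk : s3 ^ (2 + k) = 3 * s3 ^ k := by rw [pow_add, hsq]
  have hkpos : 0 < s3 ^ k := by positivity
  by_cases h5 : a'' = b'
  · -- a five-cycle
    have q0 : (((Lab R S W).filter (fun L => L a = 0 ∧ L b = 2)).card : ℝ) ≤ s3 ^ k := by
      have e1 : (((Lab R S W).filter (fun L => L a = 0 ∧ L b = 2)).card : ℝ) ≤ _ :=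
        Nat.cast_le.2 p0
      refine e1.trans (card_Lab_le_pow h.irr k ?_)
      have hsub : ({a, a'} : Finset V) ⊆
          insert a' (nb R (S \ insert b (nb R S b)) a') := by
        intro x hx
        rw [mem_insert, mem_singleton] at hx
        rcases hx with e | e
        · rw [e]
          refine mem_insert_of_mem (mem_nb.2 ⟨haD, ?_⟩)
          have : a ∈ nb R S a' := by rw [hna']; simp
          exact (mem_nb.1 this).2
        · rw [e]; exact mem_insert_self _ _
      have h1 := card_sdiff_add_card_eq_card (D_subset (R := R) ha'D)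
      have h2 := card_le_card hsub
      rw [card_pair ha'a.symm] at h2
      omega
    have q1 : (((Lab R S W).filter (fun L => L a = 1 ∧ L b = 2)).card : ℝ) ≤ s3 ^ k := by
      have e1 : (((Lab R S W).filter (fun L => L a = 1 ∧ L b = 2)).card : ℝ) ≤ _ :=
        Nat.cast_le.2 p1
      refine e1.trans (card_Lab_le_pow h.irr k ?_)
      rw [card_erase_of_mem haD', card_erase_of_mem ha'D]
      omega
    -- neighbours of b'
    have hnb' : nb R S b' = {b, a'} := by
      obtain ⟨-, cb'⟩ := h.symm2 b hb cb b' (by rw [hnb]; simp)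
      obtain ⟨y, hyb, hy⟩ := other_nb cb' (nb_symm hb (by rw [hnb]; simp : b' ∈ nb R S b))
      have : a' ∈ nb R S b' := nb_symm ha' (by rw [hna', h5]; simp)
      rw [hy, mem_insert, mem_singleton] at this
      rcases this with e | e
      · exact absurd e htri
      · rw [hy, e]
    rw [h5] at hna'
    -- the undecided branch
    have hvE : ∀ x, x ∈ S.erase v ↔ x ∈ S ∧ x ≠ v := fun x => by rw [mem_erase]; tauto
    set W1 := W ∪ nb R S v with hW1
    have haW : a ∈ W1 := mem_union_right _ (by rw [hnv]; simp)
    have hbW : b ∈ W1 := mem_union_right _ (by rw [hnv]; simp)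
    have ha'E : a' ∈ S.erase v := (hvE a').2 ⟨ha', hav⟩
    have hb'E : b' ∈ S.erase v := (hvE b').2 ⟨hb', hbv⟩
    have haE : a ∈ S.erase v := (hvE a).2 ⟨ha, hva.symm⟩
    have hbE : b ∈ S.erase v := (hvE b).2 ⟨hb, hvb.symm⟩
    have nE : ∀ x y, y ∈ nb R (S.erase v) x ↔ y ∈ nb R S x ∧ y ≠ v := by
      intro x y
      rw [mem_nb, mem_nb, mem_erase]; tauto
    have cE : (S.erase v).card = k + 4 := by rw [card_erase_of_mem hv]; omega
    have u0 : (((Lab R S W).filter (fun L => L v = 1)).card : ℝ) ≤
        (Lab R (S.erase v) W1).card := by exact_mod_cast card_und_le hv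
    have usplit := card_split (Lab R (S.erase v) W1) a'
    have usplit' : ((Lab R (S.erase v) W1).card : ℝ) =
        (((Lab R (S.erase v) W1).filter (fun L => L a' = 2)).card : ℝ)
      + (((Lab R (S.erase v) W1).filter (fun L => L a' = 1)).card : ℝ)
      + (((Lab R (S.erase v) W1).filter (fun L => L a' = 0)).card : ℝ) := by exact_mod_cast usplit
    have nna' : nb R (S.erase v) a' = {a, b'} := by
      ext y
      rw [nE, hna', mem_insert, mem_singleton]
      constructor
      · exact fun h => h.1
      · rintro (e | e)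
        · exact ⟨Or.inl e, e ▸ hva.symm⟩
        · exact ⟨Or.inr e, e ▸ hbv⟩
    have nnb' : nb R (S.erase v) b' = {b, a'} := by
      ext y
      rw [nE, hnb', mem_insert, mem_singleton]
      constructor
      · exact fun h => h.1
      · rintro (e | e)
        · exact ⟨Or.inl e, e ▸ hvb.symm⟩
        · exact ⟨Or.inr e, e ▸ hav⟩
    have u2 : (((Lab R (S.erase v) W1).filter (fun L => L a' = 2)).card : ℝ) ≤
        s3 ^ k * (20 / 17) ^ 1 := by
      have e1 : (((Lab R (S.erase v) W1).filter (fun L => L a' = 2)).card : ℝ) ≤ _ :=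
        Nat.cast_le.2 (card_in_le ha'E)
      have hbD : b ∈ S.erase v \ insert a' (nb R (S.erase v) a') := by
        rw [nna']
        simp only [mem_sdiff, mem_insert, mem_singleton, not_or]
        exact ⟨hbE, Ne.symm htri, hab.symm, hb'b.symm⟩
      have := card_Lab_le h.irr (T := S.erase v \ insert a' (nb R (S.erase v) a')) (W := W1)
        (D := {b}) k (singleton_subset_iff.2 hbD) (singleton_subset_iff.2 hbW) (by
          have h1 := card_sdiff_add_card_eq_card (D_subset (R := R) ha'E)
          have h2 : (insert a' (nb R (S.erase v) a')).card = (nb R (S.erase v) a').card + 1 :=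
            card_insert_of_notMem (notMem_nb h.irr)
          rw [nna', card_pair hab'] at h2
          rw [card_singleton]
          rw [nna'] at h1 ⊢
          omega)
      rw [card_singleton] at this
      exact e1.trans this
    have u1 : (((Lab R (S.erase v) W1).filter (fun L => L a' = 1)).card : ℝ) ≤
        s3 ^ k * (20 / 17) ^ 3 := by
      have e1 : (((Lab R (S.erase v) W1).filter (fun L => L a' = 1)).card : ℝ) ≤ _ :=
        Nat.cast_le.2 (card_und_le ha'E)
      have hcard : ({a, b, b'} : Finset V).card = 3 := by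
        rw [card_eq_three]
        exact ⟨a, b, b', hab, hab', hb'b.symm, rfl⟩
      have := card_Lab_le h.irr (T := (S.erase v).erase a') (W := W1 ∪ nb R (S.erase v) a')
        (D := {a, b, b'}) k (by
          intro x hx
          rw [mem_insert, mem_insert, mem_singleton] at hx
          rcases hx with e | e | e
          · rw [e]; exact mem_erase.2 ⟨ha'a.symm, haE⟩
          · rw [e]; exact mem_erase.2 ⟨Ne.symm htri, hbE⟩
          · rw [e]; exact mem_erase.2 ⟨Ne.symm hsq4, hb'E⟩) (by
          intro x hx
          rw [mem_insert, mem_insert, mem_singleton] at hx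
          rcases hx with e | e | e
          · rw [e]; exact mem_union_left _ haW
          · rw [e]; exact mem_union_left _ hbW
          · rw [e]; exact mem_union_right _ (by rw [nna']; simp)) (by
          rw [card_erase_of_mem ha'E, cE, hcard]; omega)
      rw [hcard] at this
      exact e1.trans this
    have u0' : (((Lab R (S.erase v) W1).filter (fun L => L a' = 0)).card : ℝ) ≤
        s3 ^ k * (20 / 17) ^ 1 := by
      have e0 : (((Lab R (S.erase v) W1).filter (fun L => L a' = 0)).card : ℝ) ≤
          ((Lab R (S.erase v) W1).filter (fun L => L b' = 2)).card := by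
        refine Nat.cast_le.2 (card_le_card fun L hL => ?_)
        rw [mem_filter] at hL ⊢
        refine ⟨hL.1, ?_⟩
        obtain ⟨y, hy, -, hy2⟩ := out_attacker hL.1 ha'E hL.2
        rw [nna', mem_insert, mem_singleton] at hy
        rcases hy with e | e
        · rw [e] at hy2
          exact absurd haW (((mem_Lab.1 hL.1).2 a haE).1.1 hy2).1
        · rw [← e]; exact hy2
      have e1 : (((Lab R (S.erase v) W1).filter (fun L => L b' = 2)).card : ℝ) ≤ _ :=
        Nat.cast_le.2 (card_in_le hb'E)
      have haD2 : a ∈ S.erase v \ insert b' (nb R (S.erase v) b') := by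
        rw [nnb']
        simp only [mem_sdiff, mem_insert, mem_singleton, not_or]
        exact ⟨haE, hab', hab, ha'a.symm⟩
      have := card_Lab_le h.irr (T := S.erase v \ insert b' (nb R (S.erase v) b')) (W := W1)
        (D := {a}) k (singleton_subset_iff.2 haD2) (singleton_subset_iff.2 haW) (by
          have h1 := card_sdiff_add_card_eq_card (D_subset (R := R) hb'E)
          have h2 : (insert b' (nb R (S.erase v) b')).card = (nb R (S.erase v) b').card + 1 :=
            card_insert_of_notMem (notMem_nb h.irr)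
          rw [nnb', card_pair (Ne.symm htri)] at h2
          rw [card_singleton]
          rw [nnb'] at h1 ⊢
          omega)
      rw [card_singleton] at this
      exact e0.trans (e1.trans this)
    rw [hN', hpk]
    rw [hpk] at h2 ha2
    norm_num at u0' u1 u2
    linarith
  · -- the path continues: six distinct vertices
    have ha''D : a'' ∈ S \ insert b (nb R S b) := (hD a'').2 ⟨ha'', ha''b, ha''v, h5⟩
    have hk1 : 1 ≤ k := by
      have hsub : ({a, a', a''} : Finset V) ⊆ S \ insert b (nb R S b) := by
        intro x hx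
        rw [mem_insert, mem_insert, mem_singleton] at hx
        rcases hx with e | e | e
        · rw [e]; exact haD
        · rw [e]; exact ha'D
        · rw [e]; exact ha''D
      have hcard : ({a, a', a''} : Finset V).card = 3 := by
        rw [card_eq_three]
        exact ⟨a, a', a'', ha'a.symm, haa.symm, ha''a'.symm, rfl⟩
      have := card_le_card hsub
      rw [hcard, cD] at this
      omega
    obtain ⟨j, rfl⟩ := Nat.exists_eq_add_of_le hk1
    have hpj : s3 ^ (1 + j) = s3 * s3 ^ j := by rw [pow_add, pow_one]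
    have hjpos : 0 < s3 ^ j := by positivity
    have q0 : (((Lab R S W).filter (fun L => L a = 0 ∧ L b = 2)).card : ℝ) ≤ s3 ^ j := by
      have e1 : (((Lab R S W).filter (fun L => L a = 0 ∧ L b = 2)).card : ℝ) ≤ _ :=
        Nat.cast_le.2 p0
      refine e1.trans (card_Lab_le_pow h.irr j ?_)
      have hsub : ({a, a', a''} : Finset V) ⊆
          insert a' (nb R (S \ insert b (nb R S b)) a') := by
        intro x hx
        rw [mem_insert, mem_insert, mem_singleton] at hx
        rcases hx with e | e | e
        · rw [e]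
          refine mem_insert_of_mem (mem_nb.2 ⟨haD, ?_⟩)
          have : a ∈ nb R S a' := by rw [hna']; simp
          exact (mem_nb.1 this).2
        · rw [e]; exact mem_insert_self _ _
        · rw [e]
          refine mem_insert_of_mem (mem_nb.2 ⟨ha''D, ?_⟩)
          have : a'' ∈ nb R S a' := by rw [hna']; simp
          exact (mem_nb.1 this).2
      have hcard : ({a, a', a''} : Finset V).card = 3 := by
        rw [card_eq_three]
        exact ⟨a, a', a'', ha'a.symm, haa.symm, ha''a'.symm, rfl⟩
      have h1 := card_sdiff_add_card_eq_card (D_subset (R := R) ha'D)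
      have h2 := card_le_card hsub
      rw [hcard] at h2
      omega
    have q1 : (((Lab R S W).filter (fun L => L a = 1 ∧ L b = 2)).card : ℝ) ≤
        s3 ^ j * (20 / 17) ^ 1 := by
      have e1 : (((Lab R S W).filter (fun L => L a = 1 ∧ L b = 2)).card : ℝ) ≤ _ :=
        Nat.cast_le.2 p1
      have ha''E : a'' ∈ ((S \ insert b (nb R S b)).erase a').erase a :=
        mem_erase.2 ⟨haa, mem_erase.2 ⟨ha''a', ha''D⟩⟩
      have := card_Lab_le h.irr (T := ((S \ insert b (nb R S b)).erase a').erase a)
        (W := (W ∪ nb R (S \ insert b (nb R S b)) a') ∪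
          nb R ((S \ insert b (nb R S b)).erase a') a)
        (D := {a''}) j (singleton_subset_iff.2 ha''E) (singleton_subset_iff.2
          (mem_union_left _ (mem_union_right _ (mem_nb.2 ⟨ha''D, by
            have : a'' ∈ nb R S a' := by rw [hna']; simp
            exact (mem_nb.1 this).2⟩)))) (by
          rw [card_erase_of_mem haD', card_erase_of_mem ha'D, card_singleton]
          omega)
      rw [card_singleton] at this
      exact e1.trans this
    rw [hN', hpk, hpj]
    rw [hpk, hpj] at h2 ha2 h1
    norm_num at q1 h1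
    nlinarith

end Pool.Agent.MP_acab80_co
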