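import Pool.Agent.MP_acab80_co.BoundB

/-!
# The upper bound for odd `n`: induction
-/

open Finset

namespace Pool.Agent.MP_acab80_co

variable {V : Type*} [DecidableEq V] [Fintype V] {R : V → V → Prop} {S W : Finset V} {v : V}

lemma und_pair {w : V} (hirr : ∀ x, ¬ R x x) (hv : v ∈ S) (hvW : v ∉ W)
    (hnb : nb R S v = {w}) :
    ∃ W' : Finset V, ((Lab R S W).filter (fun L => L v = 1)).card ≤
      (Lab R (S \ insert v (nb R S v)) W').card := by
  have hw : w ∈ nb R S v := by rw [hnb]; simp
  have hwS : w ∈ S := nb_subset hw
  have hwv : w ≠ v := fun e => notMem_nb hirr (e ▸ hw)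
  have h1 := card_und (R := R) (S := S) (W := W) (v := v) (P := fun L => L v = 1)
    (Q := fun L => L w = 1) hv (by
      intro L hL h1
      refine ⟨h1, ?_⟩
      rw [Function.update_of_ne hwv]
      obtain ⟨y, hyS, hR, hy⟩ := und_attacker hL hv hvW h1
      have : y ∈ nb R S v := mem_nb.2 ⟨hyS, Or.inr hR⟩
      rw [hnb, mem_singleton] at this
      rwa [this] at hy)
  have hwS' : w ∈ S.erase v := mem_erase.2 ⟨hwv, hwS⟩
  have h2 := card_und_le (R := R) (S := S.erase v) (W := W ∪ nb R S v) (v := w) hwS'
  have h4 : (S.erase v).erase w = S \ insert v (nb R S v) := by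
    rw [hnb]
    ext x
    simp only [mem_erase, mem_sdiff, mem_insert, mem_singleton, not_or]
    tauto
  rw [h4] at h2
  exact ⟨_, h1.trans h2⟩

/-- **Claim B.** -/
theorem boundB (hirr : ∀ x, ¬ R x x) : ∀ S W : Finset V, Odd S.card →
    ∀ m, S.card = m + 3 → ((Lab R S W).card : ℝ) ≤ 4 * s3 ^ m := by
  intro S
  induction S using Finset.strongInduction with
  | H S IH =>
  intro W hodd m hm
  have hs3 := s3_gt
  have hs3' := s3_lt
  have hsq := s3_sq
  have hs0 : (0 : ℝ) < s3 := by linarith
  have hmpos : 0 < s3 ^ m := by positivity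
  have hpm2 : s3 ^ (m + 2) = 3 * s3 ^ m := by rw [pow_add, hsq]; ring
  by_cases hweak : ∃ w ∈ S, w ∈ W
  · obtain ⟨w, hwS, hwW⟩ := hweak
    have := card_Lab_le hirr (T := S) (W := W) (D := {w}) (m + 2) (singleton_subset_iff.2 hwS)
      (singleton_subset_iff.2 hwW) (by rw [card_singleton]; omega)
    rw [card_singleton, hpm2] at this
    norm_num at this
    linarith
  push Not at hweak
  have hSne : S.Nonempty := by
    rw [← card_pos]; omega
  obtain ⟨v, hv, hmin⟩ := exists_min_image S (fun x => (nb R S x).card) hSne
  have hvW := hweak v hv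
  have hN : ∀ u, ((Lab R S W).card : ℝ) = (((Lab R S W).filter (fun L => L u = 2)).card : ℝ)
      + (((Lab R S W).filter (fun L => L u = 1)).card : ℝ)
      + (((Lab R S W).filter (fun L => L u = 0)).card : ℝ) := by
    intro u
    exact_mod_cast card_split (Lab R S W) u
  have hin : ∀ x ∈ S, (((Lab R S W).filter (fun L => L x = 2)).card : ℝ) ≤
        (Lab R (S \ insert x (nb R S x)) W).card := fun x hx => by exact_mod_cast card_in_le hx
  have cD : ∀ x ∈ S, (S \ insert x (nb R S x)).card + ((nb R S x).card + 1) = m + 3 := by
    intro x hx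
    have h1 := card_sdiff_add_card_eq_card (D_subset (R := R) hx)
    have h2 : (insert x (nb R S x)).card = (nb R S x).card + 1 :=
      card_insert_of_notMem (notMem_nb hirr)
    omega
  -- unattacked
  by_cases hatt : ∀ y ∈ S, ¬ R y v
  · have e : (Lab R S W).filter (fun L => L v = 2) = Lab R S W :=
      filter_true_of_mem fun L hL => eq_two_of_unattacked hL hv hvW hatt
    have h1 := hin v hv
    rw [e] at h1
    have h2 := card_Lab_le_pow hirr (T := S \ insert v (nb R S v)) (W := W) (m + 2)
      (by have := cD v hv; omega)
    rw [hpm2] at h2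
    linarith
  by_cases hout : ∀ y ∈ S, ¬ R v y
  · have h1 : ((Lab R S W).card : ℝ) ≤ (Lab R (S.erase v) W).card := by
      exact_mod_cast card_drop hv hout
    have h2 := card_Lab_le_pow hirr (T := S.erase v) (W := W) (m + 2)
      (by rw [card_erase_of_mem hv]; omega)
    rw [hpm2] at h2
    linarith
  push Not at hatt hout
  obtain ⟨y0, hy0S, hy0R⟩ := hatt
  have hd0 : 1 ≤ (nb R S v).card := by
    rw [Nat.one_le_iff_ne_zero]
    intro h
    have := card_eq_zero.1 h
    have h3 : y0 ∈ nb R S v := mem_nb.2 ⟨hy0S, Or.inr hy0R⟩
    rw [this] at h3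
    simp at h3
  rcases Nat.lt_or_ge (nb R S v).card 3 with hlt | hge
  · rcases Nat.lt_or_ge (nb R S v).card 2 with hlt2 | hge2
    · -- degree one
      have hone : (nb R S v).card = 1 := by omega
      obtain ⟨w, hw⟩ := card_eq_one.1 hone
      have hwnb : w ∈ nb R S v := by rw [hw]; simp
      have hwS : w ∈ S := nb_subset hwnb
      obtain ⟨W', hW'⟩ := und_pair hirr hv hvW hw
      have h2 := hin v hv
      have h1 : (((Lab R S W).filter (fun L => L v = 1)).card : ℝ) ≤
        (Lab R (S \ insert v (nb R S v)) W').card := by exact_mod_cast hW'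
      have h0 : (((Lab R S W).filter (fun L => L v = 0)).card : ℝ) ≤
        (Lab R (S \ insert w (nb R S w)) W).card := by
        refine le_trans ?_ (hin w hwS)
        refine Nat.cast_le.2 (card_le_card fun L hL => ?_)
        rw [mem_filter] at hL ⊢
        refine ⟨hL.1, ?_⟩
        obtain ⟨y, hy, -, hy2⟩ := out_attacker hL.1 hv hL.2
        rw [hw, mem_singleton] at hy
        rw [← hy]; exact hy2
      have hcv : (S \ insert v (nb R S v)).card = m + 1 := by have := cD v hv; omega
      have hcw : (S \ insert w (nb R S w)).card ≤ m + 1 := by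
        have := cD w hwS; have := hmin w hwS; omega
      have hS3 : Odd (S \ insert v (nb R S v)).card := by
        rw [hcv]; rw [hm] at hodd
        rcases hodd with ⟨t, ht⟩
        exact ⟨t - 1, by omega⟩
      rcases Nat.eq_zero_or_pos m with hm0 | hmpos'
      · -- three vertices
        subst hm0
        have k2 : (Lab R (S \ insert v (nb R S v)) W).card ≤ 1 :=
          card_le_one_of_card hirr (by omega)
        have k1 : (Lab R (S \ insert v (nb R S v)) W').card ≤ 1 :=
          card_le_one_of_card hirr (by omega)
        have k0 : (Lab R (S \ insert w (nb R S w)) W).card ≤ 1 :=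
          card_le_one_of_card hirr (by omega)
        have k2' : ((Lab R (S \ insert v (nb R S v)) W).card : ℝ) ≤ 1 := by exact_mod_cast k2
        have k1' : ((Lab R (S \ insert v (nb R S v)) W').card : ℝ) ≤ 1 := by exact_mod_cast k1
        have k0' : ((Lab R (S \ insert w (nb R S w)) W).card : ℝ) ≤ 1 := by exact_mod_cast k0
        rw [hN v, pow_zero]
        linarith
      · -- at least five vertices
        have hm2 : 2 ≤ m := by
          rw [hm] at hodd
          rcases hodd with ⟨t, ht⟩
          omega
        obtain ⟨k, rfl⟩ := Nat.exists_eq_add_of_le hm2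
        have hpk : s3 ^ (2 + k) = 3 * s3 ^ k := by rw [pow_add, hsq]
        have hkpos : 0 < s3 ^ k := by positivity
        have k2 := IH _ (sdiff_D_ssubset (R := R) hv) W hS3 k (by omega)
        have k1 := IH _ (sdiff_D_ssubset (R := R) hv) W' hS3 k (by omega)
        have k0 : ((Lab R (S \ insert w (nb R S w)) W).card : ℝ) ≤ 4 * s3 ^ k := by
          rcases Nat.lt_or_ge (S \ insert w (nb R S w)).card (2 + k + 1) with hl | hg
          · have := card_Lab_le_pow hirr (T := S \ insert w (nb R S w)) (W := W) (2 + k)
              (by omega)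
            rw [hpk] at this
            linarith
          · have e : (S \ insert w (nb R S w)).card = 2 + k + 1 := le_antisymm hcw hg
            exact IH _ (sdiff_D_ssubset (R := R) hwS) W
              (by rw [e, ← hcv]; exact hS3) k (by omega)
        rw [hN v, hpk]
        linarith
    · -- degree two
      have htwo : (nb R S v).card = 2 := by omega
      by_cases hexc : ∀ u ∈ S, (nb R S u).card = 2 → ∀ w ∈ nb R S u,
          R w u ∧ (nb R S w).card = 2
      · exact exc_case ⟨hirr, hweak, hexc⟩ hv htwo m hm
      push Not at hexc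
      obtain ⟨u, hu, hcu, w, hwu, hw⟩ := hexc
      obtain ⟨z, hzw, hnu⟩ := other_nb hcu hwu
      have hwS : w ∈ S := nb_subset hwu
      have hzS : z ∈ S := nb_subset (R := R) (v := u) (by rw [hnu]; simp)
      have h2 : (((Lab R S W).filter (fun L => L u = 2)).card : ℝ) ≤ s3 ^ m :=
        (hin u hu).trans (card_Lab_le_pow hirr m (by have := cD u hu; omega))
      have hz2 : (((Lab R S W).filter (fun L => L z = 2)).card : ℝ) ≤ s3 ^ m :=
        (hin z hzS).trans (card_Lab_le_pow hirr m
          (by have := cD z hzS; have := hmin z hzS; omega))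
      have h1 : (((Lab R S W).filter (fun L => L u = 1)).card : ℝ) ≤ s3 ^ m * (20 / 17) ^ 2 := by
        have h1 : (((Lab R S W).filter (fun L => L u = 1)).card : ℝ) ≤
            (Lab R (S.erase u) (W ∪ nb R S u)).card := by exact_mod_cast card_und_le hu
        have hsub : nb R S u ⊆ S.erase u := fun x hx =>
          mem_erase.2 ⟨fun e => notMem_nb hirr (e ▸ hx), nb_subset hx⟩
        have h3 := card_Lab_le hirr (T := S.erase u) (W := W ∪ nb R S u) (D := nb R S u) m hsub
          subset_union_right (by rw [card_erase_of_mem hu]; omega)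
        rw [hcu] at h3
        exact h1.trans h3
      norm_num at h1
      by_cases hRwu : R w u
      · have hcw : 3 ≤ (nb R S w).card := by
          have := hmin w hwS; have := hw hRwu; omega
        have hm1 : 1 ≤ m := by have := cD w hwS; omega
        obtain ⟨k, rfl⟩ := Nat.exists_eq_add_of_le hm1
        have hpk : s3 ^ (1 + k) = s3 * s3 ^ k := by rw [pow_add, pow_one]
        have hkpos : 0 < s3 ^ k := by positivity
        have hw2 : (((Lab R S W).filter (fun L => L w = 2)).card : ℝ) ≤ s3 ^ k :=
          (hin w hwS).trans (card_Lab_le_pow hirr k (by have := cD w hwS; omega))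
        have h0 : ((Lab R S W).filter (fun L => L u = 0)).card ≤
            ((Lab R S W).filter (fun L => L w = 2)).card +
              ((Lab R S W).filter (fun L => L z = 2)).card := by
          refine card_filter_or fun L hL hLv => ?_
          obtain ⟨y, hy, -, hy2⟩ := out_attacker hL hu hLv
          rw [hnu, mem_insert, mem_singleton] at hy
          rcases hy with e | e
          · left; rw [← e]; exact hy2
          · right; rw [← e]; exact hy2
        have h0' : (((Lab R S W).filter (fun L => L u = 0)).card : ℝ) ≤
            (((Lab R S W).filter (fun L => L w = 2)).card : ℝ) +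
              (((Lab R S W).filter (fun L => L z = 2)).card : ℝ) := by exact_mod_cast h0
        rw [hN u, hpk]
        rw [hpk] at h1 h2 hz2
        nlinarith
      · have h0 : (((Lab R S W).filter (fun L => L u = 0)).card : ℝ) ≤
            ((Lab R S W).filter (fun L => L z = 2)).card := by
          refine Nat.cast_le.2 (card_le_card fun L hL => ?_)
          rw [mem_filter] at hL ⊢
          refine ⟨hL.1, ?_⟩
          obtain ⟨y, hy, hRy, hy2⟩ := out_attacker hL.1 hu hL.2
          rw [hnu, mem_insert, mem_singleton] at hy
          rcases hy with e | e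
          · rw [e] at hRy; exact absurd hRy hRwu
          · rw [← e]; exact hy2
        rw [hN u]
        linarith
  · -- degree at least three
    set d := (nb R S v).card with hd
    have hdm : d ≤ m + 2 := by have := cD v hv; omega
    obtain ⟨k, hk⟩ := Nat.exists_eq_add_of_le hdm
    have hnum := num_ineq' d hge
    have hkpos : 0 < s3 ^ k := by positivity
    have hle : ∀ x ∈ S, (((Lab R S W).filter (fun L => L x = 2)).card : ℝ) ≤ s3 ^ k := by
      intro x hx
      refine (hin x hx).trans (card_Lab_le_pow hirr k ?_)
      have := cD x hx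
      have h2 : d ≤ (nb R S x).card := hmin x hx
      omega
    have h2 := hle v hv
    have h1 : (((Lab R S W).filter (fun L => L v = 1)).card : ℝ) ≤ s3 ^ k * (20 / 17) ^ d := by
      have h1 : (((Lab R S W).filter (fun L => L v = 1)).card : ℝ) ≤
          (Lab R (S.erase v) (W ∪ nb R S v)).card := by exact_mod_cast card_und_le hv
      have hsub : nb R S v ⊆ S.erase v := fun x hx =>
        mem_erase.2 ⟨fun e => notMem_nb hirr (e ▸ hx), nb_subset hx⟩
      have h3 := card_Lab_le hirr (T := S.erase v) (W := W ∪ nb R S v) (D := nb R S v) k hsub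
        subset_union_right (by rw [card_erase_of_mem hv]; omega)
      exact h1.trans h3
    have h0 : (((Lab R S W).filter (fun L => L v = 0)).card : ℝ) ≤ d * s3 ^ k := by
      classical
      have h1 := card_out_le (R := R) (S := S) (W := W) hv
      have h3 : ((∑ b ∈ (nb R S v).filter (fun b => b ∉ W ∧ R b v),
          ((Lab R S W).filter (fun L => L b = 2)).card : ℕ) : ℝ) ≤
          ∑ b ∈ (nb R S v).filter (fun b => b ∉ W ∧ R b v), s3 ^ k := by
        push_cast
        refine sum_le_sum fun b hb => ?_
        exact hle b (nb_subset (mem_filter.1 hb).1)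
      rw [sum_const, nsmul_eq_mul] at h3
      have h5 : (((nb R S v).filter (fun b => b ∉ W ∧ R b v)).card : ℝ) ≤ d := by
        exact_mod_cast card_filter_le _ _
      have h6 : (((Lab R S W).filter (fun L => L v = 0)).card : ℝ) ≤
          ((∑ b ∈ (nb R S v).filter (fun b => b ∉ W ∧ R b v),
          ((Lab R S W).filter (fun L => L b = 2)).card : ℕ) : ℝ) := by exact_mod_cast h1
      nlinarith
    have hpow : s3 ^ m = s3 ^ k * s3 ^ (d - 2) := by
      rw [← pow_add]; congr 1; omega
    rw [hN v, hpow]
    have := mul_le_mul_of_nonneg_left hnum hkpos.le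
    nlinarith

end Pool.Agent.MP_acab80_co
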