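import Mathlib

/-!
# Counting three-valued complete labellings of an attack relation

`Lab R S W` is the finite set of complete labellings (0 = out, 1 = undecided, 2 = in) of the
attack relation `R` restricted to the alive set `S`, where the vertices of `W` are weak, that is
forbidden to be in (this is the same as a self-attack).
-/

open Finset

namespace Pool.Agent.MP_acab80_co

variable {V : Type*} [Fintype V] [DecidableEq V]

open Classical in
/-- Neighbours of `v` inside `S`. -/
noncomputable def nb (R : V → V → Prop) (S : Finset V) (v : V) : Finset V :=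
  S.filter (fun y => R v y ∨ R y v)

open Classical in
/-- Complete labellings (0 = out, 1 = undecided, 2 = in) of `R` on `S` with weak set `W`. -/
noncomputable def Lab (R : V → V → Prop) (S W : Finset V) : Finset (V → Fin 3) :=
  univ.filter (fun L => (∀ x, x ∉ S → L x = 0) ∧ ∀ x ∈ S,
     (L x = 2 ↔ x ∉ W ∧ ∀ y, R y x → L y = 0) ∧ (L x = 0 ↔ ∃ y, R y x ∧ L y = 2))

variable {R : V → V → Prop} {S W : Finset V} {v : V} {L : V → Fin 3}

lemma mem_Lab : L ∈ Lab R S W ↔ (∀ x, x ∉ S → L x = 0) ∧ ∀ x ∈ S,
     (L x = 2 ↔ x ∉ W ∧ ∀ y, R y x → L y = 0) ∧ (L x = 0 ↔ ∃ y, R y x ∧ L y = 2) := by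
  classical
  simp [Lab]

omit [Fintype V] [DecidableEq V] in
lemma mem_nb {y : V} : y ∈ nb R S v ↔ y ∈ S ∧ (R v y ∨ R y v) := by
  classical
  simp [nb]

lemma in_step (hL : L ∈ Lab R S W) (hv : v ∈ S) (h2 : L v = 2) :
    Function.update L v 0 ∈ Lab R (S \ insert v (nb R S v)) W := by
  rw [mem_Lab] at hL ⊢
  obtain ⟨h0, h⟩ := hL
  have hnb : ∀ y ∈ nb R S v, L y = 0 := by
    intro y hy
    rw [mem_nb] at hy
    obtain ⟨hyS, hy | hy⟩ := hy
    · exact (h y hyS).2.2 ⟨v, hy, h2⟩
    · exact ((h v hv).1.1 h2).2 y hy
  constructor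
  · intro x hx
    by_cases hxv : x = v
    · simp [hxv]
    rw [Function.update_of_ne hxv]
    by_cases hxS : x ∈ S
    · have : x ∈ nb R S v := by
        by_contra hcon
        exact hx (by simp [hxS, hxv, hcon])
      exact hnb x this
    · exact h0 x hxS
  · intro x hx
    simp only [mem_sdiff, mem_insert, not_or] at hx
    obtain ⟨hxS, hxv, hxn⟩ := hx
    have hRv : ¬ R v x := fun hR => hxn (mem_nb.2 ⟨hxS, Or.inl hR⟩)
    rw [Function.update_of_ne hxv]
    constructor
    · rw [(h x hxS).1]
      refine and_congr_right fun _ => ?_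
      constructor
      · intro hy y hR
        by_cases hyv : y = v
        · simp [hyv]
        rw [Function.update_of_ne hyv]
        exact hy y hR
      · intro hy y hR
        have hyv : y ≠ v := fun e => hRv (e ▸ hR)
        have := hy y hR
        rwa [Function.update_of_ne hyv] at this
    · rw [(h x hxS).2]
      constructor
      · rintro ⟨y, hR, hy⟩
        have hyv : y ≠ v := fun e => hRv (e ▸ hR)
        exact ⟨y, hR, by rwa [Function.update_of_ne hyv]⟩
      · rintro ⟨y, hR, hy⟩
        have hyv : y ≠ v := fun e => hRv (e ▸ hR)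
        exact ⟨y, hR, by rwa [Function.update_of_ne hyv] at hy⟩

lemma und_step (hL : L ∈ Lab R S W) (hv : v ∈ S) (h1 : L v = 1) :
    Function.update L v 0 ∈ Lab R (S.erase v) (W ∪ nb R S v) := by
  rw [mem_Lab] at hL ⊢
  obtain ⟨h0, h⟩ := hL
  constructor
  · intro x hx
    by_cases hxv : x = v
    · simp [hxv]
    rw [Function.update_of_ne hxv]
    exact h0 x fun hxS => hx (mem_erase.2 ⟨hxv, hxS⟩)
  · intro x hx
    obtain ⟨hxv, hxS⟩ := mem_erase.1 hx
    rw [Function.update_of_ne hxv]
    constructor
    · constructor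
      · intro h2
        have h3 := (h x hxS).1.1 h2
        refine ⟨?_, ?_⟩
        · rw [mem_union, not_or]
          refine ⟨h3.1, fun hn => ?_⟩
          rcases (mem_nb.1 hn).2 with hR | hR
          · have := h3.2 v hR
            rw [h1] at this
            exact absurd this (by decide)
          · have := (h v hv).2.2 ⟨x, hR, h2⟩
            rw [h1] at this
            exact absurd this (by decide)
        · intro y hR
          by_cases hyv : y = v
          · simp [hyv]
          rw [Function.update_of_ne hyv]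
          exact h3.2 y hR
      · rintro ⟨h3, h4⟩
        rw [mem_union, not_or] at h3
        refine (h x hxS).1.2 ⟨h3.1, fun y hR => ?_⟩
        have hyv : y ≠ v := fun e => h3.2 (mem_nb.2 ⟨hxS, Or.inl (e ▸ hR)⟩)
        have := h4 y hR
        rwa [Function.update_of_ne hyv] at this
    · rw [(h x hxS).2]
      constructor
      · rintro ⟨y, hR, hy⟩
        have hyv : y ≠ v := fun e => by
          rw [e, h1] at hy; exact absurd hy (by decide)
        exact ⟨y, hR, by rwa [Function.update_of_ne hyv]⟩
      · rintro ⟨y, hR, hy⟩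
        have hyv : y ≠ v := fun e => by
          rw [e] at hy; simp at hy
        exact ⟨y, hR, by rwa [Function.update_of_ne hyv] at hy⟩

lemma out_step (hL : L ∈ Lab R S W) (h1 : L v = 0) : L ∈ Lab R (S.erase v) W := by
  rw [mem_Lab] at hL ⊢
  obtain ⟨h0, h⟩ := hL
  refine ⟨fun x hx => ?_, fun x hx => h x (mem_of_mem_erase hx)⟩
  by_cases hxv : x = v
  · rw [hxv, h1]
  · exact h0 x fun hxS => hx (mem_erase.2 ⟨hxv, hxS⟩)

/-- If `v` attacks nothing alive it can be dropped. -/
lemma drop_step (hL : L ∈ Lab R S W) (hno : ∀ y ∈ S, ¬ R v y) :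
    Function.update L v 0 ∈ Lab R (S.erase v) W := by
  rw [mem_Lab] at hL ⊢
  obtain ⟨h0, h⟩ := hL
  constructor
  · intro x hx
    by_cases hxv : x = v
    · simp [hxv]
    rw [Function.update_of_ne hxv]
    exact h0 x fun hxS => hx (mem_erase.2 ⟨hxv, hxS⟩)
  · intro x hx
    obtain ⟨hxv, hxS⟩ := mem_erase.1 hx
    rw [Function.update_of_ne hxv]
    have hRv : ¬ R v x := hno x hxS
    constructor
    · rw [(h x hxS).1]
      refine and_congr_right fun _ => ?_
      constructor
      · intro hy y hR
        have hyv : y ≠ v := fun e => hRv (e ▸ hR)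
        rw [Function.update_of_ne hyv]
        exact hy y hR
      · intro hy y hR
        have hyv : y ≠ v := fun e => hRv (e ▸ hR)
        have := hy y hR
        rwa [Function.update_of_ne hyv] at this
    · rw [(h x hxS).2]
      constructor
      · rintro ⟨y, hR, hy⟩
        have hyv : y ≠ v := fun e => hRv (e ▸ hR)
        exact ⟨y, hR, by rwa [Function.update_of_ne hyv]⟩
      · rintro ⟨y, hR, hy⟩
        have hyv : y ≠ v := fun e => hRv (e ▸ hR)
        exact ⟨y, hR, by rwa [Function.update_of_ne hyv] at hy⟩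

/-- Transport of a subfamily in which `v` is in. -/
lemma card_in {P Q : (V → Fin 3) → Prop} [DecidablePred P] [DecidablePred Q] (hv : v ∈ S)
    (h : ∀ L ∈ Lab R S W, P L → L v = 2 ∧ Q (Function.update L v 0)) :
    ((Lab R S W).filter P).card ≤ ((Lab R (S \ insert v (nb R S v)) W).filter Q).card := by
  refine card_le_card_of_injOn (fun L => Function.update L v 0) ?_ ?_
  · intro L hL
    simp only [coe_filter, Set.mem_ofPred_eq] at hL ⊢
    exact ⟨in_step hL.1 hv (h L hL.1 hL.2).1, (h L hL.1 hL.2).2⟩
  · intro L hL L' hL' heq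
    simp only [coe_filter, Set.mem_ofPred_eq] at hL hL'
    have h1 := (h L hL.1 hL.2).1
    have h2 := (h L' hL'.1 hL'.2).1
    funext x
    by_cases hx : x = v
    · rw [hx, h1, h2]
    · have := congrFun heq x
      simpa [Function.update_of_ne hx] using this

/-- Transport of a subfamily in which `v` is undecided. -/
lemma card_und {P Q : (V → Fin 3) → Prop} [DecidablePred P] [DecidablePred Q] (hv : v ∈ S)
    (h : ∀ L ∈ Lab R S W, P L → L v = 1 ∧ Q (Function.update L v 0)) :
    ((Lab R S W).filter P).card ≤ ((Lab R (S.erase v) (W ∪ nb R S v)).filter Q).card := by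
  refine card_le_card_of_injOn (fun L => Function.update L v 0) ?_ ?_
  · intro L hL
    simp only [coe_filter, Set.mem_ofPred_eq] at hL ⊢
    exact ⟨und_step hL.1 hv (h L hL.1 hL.2).1, (h L hL.1 hL.2).2⟩
  · intro L hL L' hL' heq
    simp only [coe_filter, Set.mem_ofPred_eq] at hL hL'
    have h1 := (h L hL.1 hL.2).1
    have h2 := (h L' hL'.1 hL'.2).1
    funext x
    by_cases hx : x = v
    · rw [hx, h1, h2]
    · have := congrFun heq x
      simpa [Function.update_of_ne hx] using this

/-- Transport of a subfamily in which `v` is out. -/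
lemma card_out {P Q : (V → Fin 3) → Prop} [DecidablePred P] [DecidablePred Q]
    (h : ∀ L ∈ Lab R S W, P L → L v = 0 ∧ Q L) :
    ((Lab R S W).filter P).card ≤ ((Lab R (S.erase v) W).filter Q).card := by
  refine card_le_card ?_
  intro L hL
  simp only [mem_filter] at hL ⊢
  exact ⟨out_step hL.1 (h L hL.1 hL.2).1, (h L hL.1 hL.2).2⟩

/-- If `v` attacks nothing alive it can be dropped. -/
lemma card_drop (hv : v ∈ S) (hno : ∀ y ∈ S, ¬ R v y) :
    (Lab R S W).card ≤ (Lab R (S.erase v) W).card := by
  refine card_le_card_of_injOn (fun L => Function.update L v 0) ?_ ?_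
  · intro L hL
    exact drop_step hL hno
  · intro L hL L' hL' heq
    have hL1 := (mem_Lab.1 hL).2 v hv
    have hL2 := (mem_Lab.1 hL').2 v hv
    have hoff : ∀ y, y ≠ v → L y = L' y := by
      intro y hy
      have := congrFun heq y
      simpa [Function.update_of_ne hy] using this
    have hvv : ¬ R v v := hno v hv
    have e2 : L v = 2 ↔ L' v = 2 := by
      rw [hL1.1, hL2.1]
      refine and_congr_right fun _ => forall_congr' fun y => ?_
      refine imp_congr_right fun hR => ?_
      rw [hoff y (fun e => hvv (e ▸ hR))]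
    have e0 : L v = 0 ↔ L' v = 0 := by
      rw [hL1.2, hL2.2]
      refine exists_congr fun y => and_congr_right fun hR => ?_
      rw [hoff y (fun e => hvv (e ▸ hR))]
    funext x
    by_cases hx : x = v
    · rw [hx]
      have key : ∀ p q : Fin 3, (p = 2 ↔ q = 2) → (p = 0 ↔ q = 0) → p = q := by decide
      exact key _ _ e2 e0
    · exact hoff x hx

omit [Fintype V] [DecidableEq V] in
lemma card_split (F : Finset (V → Fin 3)) (v : V) :
    F.card = (F.filter (fun L => L v = 2)).card + (F.filter (fun L => L v = 1)).card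
      + (F.filter (fun L => L v = 0)).card := by
  have h1 := card_filter_add_card_filter_not (s := F) (fun L => L v = 2)
  have h2 := card_filter_add_card_filter_not (s := F.filter (fun L => ¬ L v = 2))
    (fun L => L v = 1)
  have e1 : (F.filter (fun L => ¬ L v = 2)).filter (fun L => L v = 1)
      = F.filter (fun L => L v = 1) := by
    ext L
    simp only [mem_filter]
    constructor
    · rintro ⟨⟨a, -⟩, c⟩; exact ⟨a, c⟩
    · rintro ⟨a, c⟩; exact ⟨⟨a, by rw [c]; decide⟩, c⟩
  have e2 : (F.filter (fun L => ¬ L v = 2)).filter (fun L => ¬ L v = 1)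
      = F.filter (fun L => L v = 0) := by
    ext L
    simp only [mem_filter]
    constructor
    · rintro ⟨⟨a, b⟩, c⟩
      refine ⟨a, ?_⟩
      revert b c
      generalize L v = p
      revert p
      decide
    · rintro ⟨a, c⟩; exact ⟨⟨a, by rw [c]; decide⟩, by rw [c]; decide⟩
  rw [e1, e2] at h2
  omega

lemma card_in_le (hv : v ∈ S) :
    ((Lab R S W).filter (fun L => L v = 2)).card ≤ (Lab R (S \ insert v (nb R S v)) W).card := by
  have := card_in (R := R) (S := S) (W := W) (v := v) (P := fun L => L v = 2)
    (Q := fun _ => True) hv (fun L _ h => ⟨h, trivial⟩)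
  simpa using this

lemma card_und_le (hv : v ∈ S) :
    ((Lab R S W).filter (fun L => L v = 1)).card ≤
      (Lab R (S.erase v) (W ∪ nb R S v)).card := by
  have := card_und (R := R) (S := S) (W := W) (v := v) (P := fun L => L v = 1)
    (Q := fun _ => True) hv (fun L _ h => ⟨h, trivial⟩)
  simpa using this

open Classical in
lemma card_out_le (hv : v ∈ S) :
    ((Lab R S W).filter (fun L => L v = 0)).card ≤
      ∑ b ∈ (nb R S v).filter (fun b => b ∉ W ∧ R b v),
        ((Lab R S W).filter (fun L => L b = 2)).card := by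
  have hsub : (Lab R S W).filter (fun L => L v = 0) ⊆
      ((nb R S v).filter (fun b => b ∉ W ∧ R b v)).biUnion
        (fun b => (Lab R S W).filter (fun L => L b = 2)) := by
    intro L hL
    simp only [mem_filter] at hL
    obtain ⟨hL, h0⟩ := hL
    have hL' := mem_Lab.1 hL
    obtain ⟨b, hR, hb⟩ := (hL'.2 v hv).2.1 h0
    have hbS : b ∈ S := by
      by_contra hcon
      rw [hL'.1 b hcon] at hb
      exact absurd hb (by decide)
    have hbW : b ∉ W := ((hL'.2 b hbS).1.1 hb).1
    simp only [mem_biUnion, mem_filter]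
    exact ⟨b, ⟨mem_nb.2 ⟨hbS, Or.inr hR⟩, hbW, hR⟩, hL, hb⟩
  exact (card_le_card hsub).trans card_biUnion_le

end Pool.Agent.MP_acab80_co
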