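import Pool.Agent.MP_acab80_co.BoundOdd

/-!
# From labellings to natural number bounds
-/

open Finset

namespace Pool.Agent.MP_acab80_co

variable {V : Type*} [DecidableEq V] [Fintype V] {R : V → V → Prop}

lemma s3_pow_even (j : ℕ) : s3 ^ (2 * j) = 3 ^ j := by rw [pow_mul, s3_sq]

lemma card_Lab_even (hirr : ∀ x, ¬ R x x) (W : Finset V) (j : ℕ) (h : Fintype.card V = 2 * j) :
    (Lab R univ W).card ≤ 3 ^ j := by
  have h1 := card_Lab_le_pow hirr (T := univ) (W := W) (2 * j) (by rw [card_univ, h])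
  rw [s3_pow_even] at h1
  exact_mod_cast h1

lemma card_Lab_odd (hirr : ∀ x, ¬ R x x) (W : Finset V) (j : ℕ)
    (h : Fintype.card V = 2 * j + 3) : (Lab R univ W).card ≤ 4 * 3 ^ j := by
  have h1 := boundB hirr univ W (by rw [card_univ, h]; exact ⟨j + 1, by ring⟩) (2 * j)
    (by rw [card_univ, h])
  rw [s3_pow_even] at h1
  exact_mod_cast h1

lemma card_Lab_small (hirr : ∀ x, ¬ R x x) (W : Finset V) (h : Fintype.card V ≤ 1) :
    (Lab R univ W).card ≤ 1 :=
  card_le_one_of_card hirr (by rwa [card_univ])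

end Pool.Agent.MP_acab80_co
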